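import Mathlib

/-!
# Associated forms: the definitions

Fix `n ≥ 2` and `d ≥ 3`.  A form of degree `d` in `n` variables is a homogeneous polynomial
`f : MvPolynomial (Fin n) ℂ` of degree `d`.
-/

set_option autoImplicit false

open MvPolynomial

namespace Pool.Agent.Lib.Helper77.Disc

/-- Exponent vectors `α = (α_1, …, α_n)` with `|α| = k`, that is, the monomials of degree `k` in
`n` variables. -/
abbrev Expo (n k : ℕ) : Type := {α : Fin n →₀ ℕ // α.degree = k}

/-- The ring of polynomial functions on the space `V` of forms of degree `d` in `n` variables: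
the polynomials in the coefficients of the form, one variable for each monomial of degree `d`. -/
abbrev CoeffRing (n d : ℕ) : Type := MvPolynomial (Expo n d) ℂ

/-- The value at the form `f` of a polynomial `P` in the coefficients of forms of degree `d`. -/
noncomputable def atForm {n d : ℕ} (P : CoeffRing n d) (f : MvPolynomial (Fin n) ℂ) : ℂ :=
  eval (fun α : Expo n d => coeff α.1 f) P

/-- The ideal generated by the first partial derivatives of `f`. -/
noncomputable def jacobianIdeal {n : ℕ} {R : Type*} [CommRing R] (f : MvPolynomial (Fin n) R) :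
    Ideal (MvPolynomial (Fin n) R) :=
  Ideal.span (Set.range fun i => pderiv i f)

/-- The Hessian determinant `H_f = det (∂_i ∂_j f)`. -/
noncomputable def hessianDet {n : ℕ} {R : Type*} [CommRing R] (f : MvPolynomial (Fin n) R) :
    MvPolynomial (Fin n) R :=
  Matrix.det (Matrix.of fun i j : Fin n => pderiv i (pderiv j f))

/-- `f` is degenerate: its first partial derivatives have a common nonzero zero in `ℂ ^ n`. -/
def IsDegenerate {n : ℕ} (f : MvPolynomial (Fin n) ℂ) : Prop :=
  ∃ z : Fin n → ℂ, z ≠ 0 ∧ ∀ i, eval z (pderiv i f) = 0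

/-- `Δ` is the discriminant of forms of degree `d` in `n` variables (unique up to a nonzero
constant factor): the irreducible polynomial in the coefficients which vanishes exactly at the
degenerate forms. -/
def IsDiscriminant {n d : ℕ} (Δ : CoeffRing n d) : Prop :=
  Irreducible Δ ∧ ∀ f : MvPolynomial (Fin n) ℂ, f.IsHomogeneous d →
    (atForm Δ f = 0 ↔ IsDegenerate f)

/-- `c` is the coefficient `μ_i(f)`: one has `z ^ i = c H_f` in the Milnor algebra
`ℂ[z_1, …, z_n] / (∂_1 f, …, ∂_n f)`. -/
def IsMu {n k : ℕ} (f : MvPolynomial (Fin n) ℂ) (i : Expo n k) (c : ℂ) : Prop :=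
  monomial i.1 1 - C c * hessianDet f ∈ jacobianIdeal f

/-- The coefficient `μ_i(f)`, that is, the number `c` with `IsMu f i c`. -/
noncomputable def mu {n k : ℕ} (f : MvPolynomial (Fin n) ℂ) (i : Expo n k) : ℂ :=
  Classical.epsilon (IsMu f i)

/-- `Δ ^ p μ_i` is a polynomial function on the space of forms: it coincides with such a
function at every form `f` with `Δ(f) ≠ 0`. -/
def IsExponent {n d : ℕ} (Δ : CoeffRing n d) (i : Expo n (n * (d - 2))) (p : ℤ) : Prop :=
  ∃ Q : CoeffRing n d, ∀ f : MvPolynomial (Fin n) ℂ, f.IsHomogeneous d → atForm Δ f ≠ 0 →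
    atForm Δ f ^ p * mu f i = atForm Q f

/-- The number `p_i`: the smallest integer `p` for which `Δ ^ p μ_i` is a polynomial function. -/
noncomputable def pIndex {n d : ℕ} (Δ : CoeffRing n d) (i : Expo n (n * (d - 2))) : ℤ :=
  sInf {p : ℤ | IsExponent Δ i p}

/-- The number `p(n, d) = max_i p_i`. -/
noncomputable def pMax {n d : ℕ} (Δ : CoeffRing n d) : ℤ :=
  ⨆ i : Expo n (n * (d - 2)), pIndex Δ i

end Pool.Agent.Lib.Helper77.Disc
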