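import Mathlib

/-!
# Determinants of systems of parameters, elementary part

For forms `g_1, …, g_n` without common zero and a matrix `M` with `M X = g`, the determinant of
`M` is not in the ideal generated by the `g_i`.
-/

set_option autoImplicit false

open MvPolynomial Matrix

namespace Pool.Agent.Lib.Helper77.Disc

section PowerIdeal

variable {n : ℕ} {K : Type*} [Field K]

/-- The ideal generated by `X_i ^ N`, `i ∈ s`. -/
noncomputable def powIdeal (K : Type*) [Field K] (n N : ℕ) (s : Set (Fin n)) :
    Ideal (MvPolynomial (Fin n) K) :=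
  Ideal.span ((fun i => (X i : MvPolynomial (Fin n) K) ^ N) '' s)

theorem mem_powIdeal {N : ℕ} {s : Set (Fin n)} {P : MvPolynomial (Fin n) K} :
    P ∈ powIdeal K n N s ↔ ∀ u ∈ P.support, ∃ i ∈ s, N ≤ u i := by
  have h : (fun i => (X i : MvPolynomial (Fin n) K) ^ N) '' s =
      (fun u => monomial u (1 : K)) '' ((fun i => Finsupp.single i N) '' s) := by
    rw [Set.image_image]
    apply Set.image_congr
    intro i _
    rw [X_pow_eq_monomial]
  rw [powIdeal, h, mem_ideal_span_monomial_image]
  simp only [Set.mem_image, exists_exists_and_eq_and, Finsupp.single_le_iff]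

theorem powIdeal_mono {N : ℕ} {s t : Set (Fin n)} (h : s ⊆ t) :
    powIdeal K n N s ≤ powIdeal K n N t :=
  Ideal.span_mono (Set.image_mono h)

theorem X_pow_mem_powIdeal {N : ℕ} {s : Set (Fin n)} {i : Fin n} (hi : i ∈ s) :
    (X i : MvPolynomial (Fin n) K) ^ N ∈ powIdeal K n N s :=
  Ideal.subset_span ⟨i, hi, rfl⟩

/-- `X_a` is a nonzerodivisor modulo `(X_i ^ N : i ≠ a)`. -/
theorem mem_powIdeal_of_X_mul {N : ℕ} {a : Fin n} {P : MvPolynomial (Fin n) K}
    (h : X a * P ∈ powIdeal K n N {i | i ≠ a}) : P ∈ powIdeal K n N {i | i ≠ a} := by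
  rw [mem_powIdeal] at h ⊢
  intro u hu
  obtain ⟨i, hi, hN⟩ := h (Finsupp.single a 1 + u) (by
    rw [mem_support_iff, coeff_X_mul]
    exact mem_support_iff.1 hu)
  refine ⟨i, hi, ?_⟩
  have hi' : a ≠ i := fun h => hi h.symm
  simpa [Finsupp.single_apply, hi'] using hN

theorem prod_X_pow_notMem {N : ℕ} (hN : 1 ≤ N) :
    (∏ i, (X i : MvPolynomial (Fin n) K) ^ (N - 1)) ∉ powIdeal K n N Set.univ := by
  intro h
  rw [mem_powIdeal] at h
  have h1 : (∏ i, (X i : MvPolynomial (Fin n) K) ^ (N - 1)) =
      monomial (∑ i, Finsupp.single i (N - 1)) 1 := by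
    rw [monomial_sum_one]
    apply Finset.prod_congr rfl
    intro i _
    rw [X_pow_eq_monomial]
  obtain ⟨i, -, hi⟩ := h (∑ i, Finsupp.single i (N - 1)) (by
    rw [h1, mem_support_iff, coeff_monomial, if_pos rfl]
    exact one_ne_zero)
  rw [Finsupp.finsetSum_apply, Finset.sum_eq_single i] at hi
  · simp at hi
    omega
  · intro b _ hb
    simp [hb]
  · simp

/-- The basic cofactor computation. -/
theorem det_mem_powIdeal {N : ℕ} (a : Fin n)
    (M : Matrix (Fin n) (Fin n) (MvPolynomial (Fin n) K))
    (hM : ∀ i, i ≠ a → ∑ j, M i j * X j = X i ^ N) (ha : ∑ j, M a j * X j = 0) :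
    M.det ∈ powIdeal K n N {i | i ≠ a} := by
  apply mem_powIdeal_of_X_mul
  have h1 : X a * M.det = ∑ i, M.adjugate a i * ∑ j, M i j * X j := by
    have h2 := congrFun (congrArg (fun A => A *ᵥ (X : Fin n → MvPolynomial (Fin n) K))
      (adjugate_mul M)) a
    simp only [← mulVec_mulVec] at h2
    rw [smul_mulVec, one_mulVec, Pi.smul_apply, smul_eq_mul, mul_comm] at h2
    rw [← h2]
    rfl
  rw [h1]
  apply Ideal.sum_mem
  intro i _
  by_cases hi : i = a
  · rw [hi, ha, mul_zero]
    exact Ideal.zero_mem _
  · rw [hM i hi]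
    exact Ideal.mul_mem_left _ _ (X_pow_mem_powIdeal hi)

/-- If `M X = (X_i ^ N)`, then `det M` is congruent to `∏ X_i ^ (N-1)` modulo `(X_i ^ N)`. -/
theorem det_sub_prod_mem {N : ℕ} (hN : 1 ≤ N)
    (M : Matrix (Fin n) (Fin n) (MvPolynomial (Fin n) K))
    (hM : ∀ i, ∑ j, M i j * X j = X i ^ N) :
    M.det - ∏ i, X i ^ (N - 1) ∈ powIdeal K n N Set.univ := by
  classical
  -- replace the rows one at a time
  let R : Finset (Fin n) → Matrix (Fin n) (Fin n) (MvPolynomial (Fin n) K) :=
    fun s i => if i ∈ s then Pi.single i (X i ^ (N - 1)) else M i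
  have hR : ∀ s i, ∑ j, R s i j * X j = X i ^ N := by
    intro s i
    by_cases hi : i ∈ s
    · simp only [R, if_pos hi]
      rw [Finset.sum_eq_single i]
      · rw [Pi.single_eq_same, ← pow_succ]
        congr 1
        omega
      · intro b _ hb
        rw [Pi.single_eq_of_ne hb, zero_mul]
      · simp
    · simp only [R, if_neg hi]
      exact hM i
  have key : ∀ s : Finset (Fin n), M.det - (R s).det ∈ powIdeal K n N Set.univ := by
    intro s
    induction s using Finset.induction_on with
    | empty =>
      have : R ∅ = M := by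
        funext i
        simp [R]
      rw [this, sub_self]
      exact Ideal.zero_mem _
    | insert a s ha ih =>
      have h1 : R (insert a s) = (R s).updateRow a (Pi.single a (X a ^ (N - 1))) := by
        funext i
        by_cases hi : i = a
        · subst hi
          rw [updateRow_self]
          simp [R]
        · rw [updateRow_ne hi]
          simp only [R, Finset.mem_insert, hi, false_or]
      have h2 : (R s).det = (R (insert a s)).det +
          ((R s).updateRow a (M a - Pi.single a (X a ^ (N - 1)))).det := by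
        rw [h1, ← det_updateRow_add]
        congr 1
        have : Pi.single a (X a ^ (N - 1)) + (M a - Pi.single a (X a ^ (N - 1))) = M a := by
          abel
        rw [this]
        funext i
        by_cases hi : i = a
        · subst hi
          rw [updateRow_self]
          simp [R, ha]
        · rw [updateRow_ne hi]
      have h3 : ((R s).updateRow a (M a - Pi.single a (X a ^ (N - 1)))).det ∈
          powIdeal K n N Set.univ := by
        apply powIdeal_mono (Set.subset_univ {i | i ≠ a})
        apply det_mem_powIdeal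
        · intro i hi
          rw [updateRow_ne hi]
          exact hR s i
        · rw [updateRow_self]
          simp only [Pi.sub_apply, sub_mul, Finset.sum_sub_distrib]
          rw [hM a, Finset.sum_eq_single a]
          · rw [Pi.single_eq_same, ← pow_succ, sub_eq_zero]
            congr 1
            omega
          · intro b _ hb
            rw [Pi.single_eq_of_ne hb, zero_mul]
          · simp
      have h4 : M.det - (R (insert a s)).det = (M.det - (R s).det) +
          ((R s).updateRow a (M a - Pi.single a (X a ^ (N - 1)))).det := by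
        rw [h2]
        ring
      rw [h4]
      exact Ideal.add_mem _ ih h3
  have hlast : (R Finset.univ).det = ∏ i, X i ^ (N - 1) := by
    have : R Finset.univ = diagonal (fun i => X i ^ (N - 1)) := by
      funext i j
      simp only [R, Finset.mem_univ, if_true]
      by_cases hij : i = j
      · subst hij
        simp
      · rw [diagonal_apply_ne _ hij, Pi.single_eq_of_ne (fun h => hij h.symm)]
    rw [this, det_diagonal]
  rw [← hlast]
  exact key _

end PowerIdeal

section Main

variable {n : ℕ}

/-- The ideal generated by a system of polynomials. -/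
noncomputable def sysIdeal (g : Fin n → MvPolynomial (Fin n) ℂ) :
    Ideal (MvPolynomial (Fin n) ℂ) :=
  Ideal.span (Set.range g)

/-- The polynomials of the system have only the trivial common zero. -/
def NoCommonZero (g : Fin n → MvPolynomial (Fin n) ℂ) : Prop :=
  ∀ z : Fin n → ℂ, (∀ i, eval z (g i) = 0) → z = 0

/-- By the Nullstellensatz some power of every variable is in the ideal. -/
theorem exists_pow_mem (g : Fin n → MvPolynomial (Fin n) ℂ) (hg : NoCommonZero g) :
    ∃ N, 1 ≤ N ∧ ∀ i, (X i : MvPolynomial (Fin n) ℂ) ^ N ∈ sysIdeal g := by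
  have h1 : ∀ i, (X i : MvPolynomial (Fin n) ℂ) ∈ (sysIdeal g).radical := by
    intro i
    rw [← vanishingIdeal_zeroLocus_eq_radical (K := ℂ), mem_vanishingIdeal_iff]
    intro z hz
    have hz0 : z = 0 := by
      apply hg
      intro j
      rw [mem_zeroLocus_iff] at hz
      have := hz (g j) (Ideal.subset_span ⟨j, rfl⟩)
      simpa [aeval_eq_eval] using this
    rw [hz0]
    simp
  choose m hm using h1
  refine ⟨∑ i, m i + 1, by omega, ?_⟩
  intro i
  have : ∑ i, m i + 1 = m i + (∑ j, m j + 1 - m i) := by
    have := Finset.single_le_sum (f := m) (fun j _ => Nat.zero_le _) (Finset.mem_univ i)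
    omega
  rw [this, pow_add]
  exact Ideal.mul_mem_right _ _ (hm i)

/-- **Part A1.** If `M X = g` and the `g_i` have no common zero, then `det M` is not in the ideal
generated by the `g_i`. -/
theorem det_notMem (g : Fin n → MvPolynomial (Fin n) ℂ) (hg : NoCommonZero g)
    (M : Matrix (Fin n) (Fin n) (MvPolynomial (Fin n) ℂ))
    (hM : ∀ i, ∑ j, M i j * X j = g i) : M.det ∉ sysIdeal g := by
  obtain ⟨N, hN, hpow⟩ := exists_pow_mem g hg
  have hA : ∀ i, ∃ c : Fin n → MvPolynomial (Fin n) ℂ, ∑ j, c j * g j = X i ^ N := by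
    intro i
    have := hpow i
    rw [sysIdeal, Ideal.mem_span_range_iff_exists_fun] at this
    exact this
  choose A hA using hA
  let A' : Matrix (Fin n) (Fin n) (MvPolynomial (Fin n) ℂ) := Matrix.of A
  intro hmem
  -- `det A * g_j` is in the power ideal
  have h1 : ∀ j, A'.det * g j ∈ powIdeal ℂ n N Set.univ := by
    intro j
    have h2 := congrFun (congrArg (fun B => B *ᵥ g) (adjugate_mul A')) j
    simp only [← mulVec_mulVec] at h2
    rw [smul_mulVec, one_mulVec, Pi.smul_apply, smul_eq_mul] at h2
    rw [← h2]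
    change ∑ i, A'.adjugate j i * (∑ l, A i l * g l) ∈ _
    apply Ideal.sum_mem
    intro i _
    rw [hA i]
    exact Ideal.mul_mem_left _ _ (X_pow_mem_powIdeal (Set.mem_univ _))
  have h3 : A'.det * M.det ∈ powIdeal ℂ n N Set.univ := by
    rw [sysIdeal] at hmem
    rw [mul_comm]
    refine Submodule.span_induction (p := fun x _ => x * A'.det ∈ powIdeal ℂ n N Set.univ)
      ?_ ?_ ?_ ?_ hmem
    · rintro _ ⟨j, rfl⟩
      rw [mul_comm]
      exact h1 j
    · rw [zero_mul]
      exact Ideal.zero_mem _
    · intro x y _ _ hx hy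
      rw [add_mul]
      exact Ideal.add_mem _ hx hy
    · intro a x _ hx
      rw [smul_eq_mul, mul_assoc]
      exact Ideal.mul_mem_left _ _ hx
  have h4 : (A' * M).det - ∏ i, X i ^ (N - 1) ∈ powIdeal ℂ n N Set.univ := by
    apply det_sub_prod_mem hN
    intro i
    have h5 : ∑ j, (A' * M) i j * X j = ((A' * M) *ᵥ X) i := rfl
    rw [h5, ← mulVec_mulVec]
    have h6 : M *ᵥ X = g := by
      funext k
      exact hM k
    rw [h6]
    exact hA i
  rw [det_mul] at h4
  have h7 := Ideal.sub_mem _ h3 h4
  rw [sub_sub_cancel] at h7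
  exact prod_X_pow_notMem hN h7

end Main

end Pool.Agent.Lib.Helper77.Disc
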