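import Pool.Agent.Lib.Helper77.Disc.PartA

/-!
# The top degree of a complete intersection, via the Bezoutian
-/

set_option autoImplicit false

open MvPolynomial Matrix

namespace Pool.Agent.Lib.Helper77.Disc

variable {n : ℕ}

/-- Polynomials in the variables `y` over polynomials in the variables `z`. -/
abbrev R2 (n : ℕ) : Type := MvPolynomial (Fin n) (MvPolynomial (Fin n) ℂ)

/-- `P(y, z)` is homogeneous of total degree `k` (up to a shift `e`). -/
def Bihom (e k : ℕ) (P : R2 n) : Prop :=
  ∀ b a, coeff a (coeff b P) ≠ 0 → a.degree + b.degree + e = k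

theorem Bihom.zero (e k : ℕ) : Bihom e k (0 : R2 n) := by
  intro b a h
  simp at h

theorem Bihom.add {e k : ℕ} {P Q : R2 n} (hP : Bihom e k P) (hQ : Bihom e k Q) :
    Bihom e k (P + Q) := by
  intro b a h
  rw [coeff_add, coeff_add] at h
  by_cases h1 : coeff a (coeff b P) = 0
  · rw [h1, zero_add] at h
    exact hQ b a h
  · exact hP b a h1

theorem Bihom.neg {e k : ℕ} {P : R2 n} (hP : Bihom e k P) : Bihom e k (-P) := by
  intro b a h
  rw [coeff_neg, coeff_neg, neg_ne_zero] at h
  exact hP b a h

theorem Bihom.sum {ι : Type*} {e k : ℕ} (s : Finset ι) (P : ι → R2 n)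
    (h : ∀ i ∈ s, Bihom e k (P i)) : Bihom e k (∑ i ∈ s, P i) := by
  classical
  induction s using Finset.induction_on with
  | empty => simpa using Bihom.zero e k
  | insert a s ha ih =>
    rw [Finset.sum_insert ha]
    exact (h a (Finset.mem_insert_self a s)).add
      (ih (fun i hi => h i (Finset.mem_insert_of_mem hi)))

theorem Bihom.mul {e e' k k' : ℕ} {P Q : R2 n} (hP : Bihom e k P) (hQ : Bihom e' k' Q) :
    Bihom (e + e') (k + k') (P * Q) := by
  classical
  intro b a h
  rw [coeff_mul, coeff_sum] at h
  obtain ⟨⟨b1, b2⟩, hb, h1⟩ := Finset.exists_ne_zero_of_sum_ne_zero h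
  rw [coeff_mul] at h1
  obtain ⟨⟨a1, a2⟩, ha, h2⟩ := Finset.exists_ne_zero_of_sum_ne_zero h1
  simp only at h2
  have h3 := hP b1 a1 (left_ne_zero_of_mul h2)
  have h4 := hQ b2 a2 (right_ne_zero_of_mul h2)
  rw [Finset.HasAntidiagonal.mem_antidiagonal] at hb ha
  simp only at hb ha
  rw [← hb, ← ha, map_add, map_add]
  omega

theorem Bihom.C_monomial (α : Fin n →₀ ℕ) (r : ℂ) : Bihom 0 α.degree (C (monomial α r) : R2 n) := by
  classical
  intro b a h
  rw [coeff_C] at h
  split_ifs at h with h1
  · rw [coeff_monomial] at h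
    split_ifs at h with h2
    · rw [← h1, ← h2]
      simp
    · exact absurd rfl h
  · simp at h

theorem Bihom.map_monomial (α : Fin n →₀ ℕ) (r : ℂ) :
    Bihom 0 α.degree (map C (monomial α r) : R2 n) := by
  classical
  intro b a h
  rw [coeff_map, coeff_monomial] at h
  split_ifs at h with h1
  · rw [coeff_C] at h
    split_ifs at h with h2
    · rw [← h1, ← h2]
      simp
    · exact absurd rfl h
  · simp at h

theorem Bihom.one : Bihom 0 0 (1 : R2 n) := by
  have := Bihom.C_monomial (n := n) 0 1
  simpa using this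

theorem Bihom.prod {ι : Type*} {e k : ℕ} (s : Finset ι) (P : ι → R2 n)
    (h : ∀ i ∈ s, Bihom e k (P i)) : Bihom (s.card * e) (s.card * k) (∏ i ∈ s, P i) := by
  classical
  induction s using Finset.induction_on with
  | empty => simpa using Bihom.one
  | insert a s ha ih =>
    rw [Finset.prod_insert ha, Finset.card_insert_of_notMem ha]
    have := (h a (Finset.mem_insert_self a s)).mul
      (ih (fun i hi => h i (Finset.mem_insert_of_mem hi)))
    convert this using 1 <;> ring

theorem Bihom.det {e k : ℕ} (M : Matrix (Fin n) (Fin n) (R2 n)) (h : ∀ i j, Bihom e k (M i j)) :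
    Bihom (n * e) (n * k) M.det := by
  rw [det_apply]
  apply Bihom.sum
  intro σ _
  have h1 : Bihom (n * e) (n * k) (∏ i, M (σ i) i) := by
    have := Bihom.prod (Finset.univ : Finset (Fin n)) (fun i => M (σ i) i) (fun i _ => h _ _)
    simpa using this
  rcases Int.units_eq_one_or (Equiv.Perm.sign σ) with h2 | h2
  · rw [h2, one_smul]
    exact h1
  · rw [h2, Units.neg_smul, one_smul]
    exact h1.neg

/-- The difference quotients for a monomial. -/
def HasQuot (p : MvPolynomial (Fin n) ℂ) (δ : ℕ) : Prop :=
  ∃ θ : Fin n → R2 n, (∀ j, Bihom 1 δ (θ j)) ∧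
    (C p - map C p : R2 n) = ∑ j, (C (X j) - X j) * θ j

theorem hasQuot_add (α β : Fin n →₀ ℕ) (hα : HasQuot (monomial α 1) α.degree)
    (hβ : HasQuot (monomial β 1) β.degree) : HasQuot (monomial (α + β) 1) (α + β).degree := by
  obtain ⟨θ, h1, h2⟩ := hα
  obtain ⟨θ', h1', h2'⟩ := hβ
  refine ⟨fun j => θ j * C (monomial β 1) + map C (monomial α 1) * θ' j, ?_, ?_⟩
  · intro j
    rw [map_add]
    apply Bihom.add
    · exact (h1 j).mul (Bihom.C_monomial β 1)
    · have := (Bihom.map_monomial α 1).mul (h1' j)
      simpa using this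
  · have hm : (monomial (α + β) (1 : ℂ)) = monomial α 1 * monomial β 1 := by
      rw [monomial_mul, one_mul]
    rw [hm, map_mul, map_mul]
    have h3 : (C (monomial α 1) * C (monomial β 1) -
        map C (monomial α (1 : ℂ)) * map C (monomial β 1) : R2 n) =
        (C (monomial α 1) - map C (monomial α 1)) * C (monomial β 1) +
        map C (monomial α 1) * (C (monomial β 1) - map C (monomial β 1)) := by ring
    rw [h3, h2, h2', Finset.sum_mul, Finset.mul_sum, ← Finset.sum_add_distrib]
    apply Finset.sum_congr rfl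
    intro j _
    ring

theorem hasQuot_zero : HasQuot (monomial (0 : Fin n →₀ ℕ) 1) (0 : Fin n →₀ ℕ).degree := by
  refine ⟨fun _ => 0, fun j => Bihom.zero _ _, ?_⟩
  simp

theorem hasQuot_single_one (i : Fin n) :
    HasQuot (monomial (Finsupp.single i 1) 1) (Finsupp.single i 1).degree := by
  classical
  refine ⟨fun j => if j = i then 1 else 0, ?_, ?_⟩
  · intro j
    by_cases h : j = i
    · simp only [if_pos h]
      intro b a hb
      have := Bihom.one (n := n) b a hb
      simp only [Finsupp.degree_single]
      omega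
    · simp only [if_neg h]
      exact Bihom.zero _ _
  · have hX : (monomial (Finsupp.single i 1) (1 : ℂ)) = X i := rfl
    rw [hX, map_X]
    simp

theorem hasQuot_monomial (α : Fin n →₀ ℕ) : HasQuot (monomial α 1) α.degree := by
  classical
  induction α using Finsupp.induction_linear with
  | zero => exact hasQuot_zero
  | add f g hf hg => exact hasQuot_add f g hf hg
  | single i b =>
    induction b with
    | zero =>
      rw [Finsupp.single_zero]
      exact hasQuot_zero
    | succ b ih =>
      rw [Finsupp.single_add]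
      exact hasQuot_add _ _ ih (hasQuot_single_one i)

theorem hasQuot_of_isHomogeneous (p : MvPolynomial (Fin n) ℂ) (δ : ℕ) (hp : p.IsHomogeneous δ) :
    HasQuot p δ := by
  classical
  choose θ h1 h2 using fun α : Fin n →₀ ℕ => hasQuot_monomial α
  refine ⟨fun j => ∑ α ∈ p.support, C (C (coeff α p)) * θ α j, ?_, ?_⟩
  · intro j
    apply Bihom.sum
    intro α hα
    have hdeg : α.degree = δ := by
      by_contra hne
      exact (mem_support_iff.1 hα) (hp.coeff_eq_zero hne)
    have := (Bihom.C_monomial (n := n) 0 (coeff α p)).mul (h1 α j)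
    rw [hdeg] at this
    simpa using this
  · conv_lhs => rw [p.as_sum]
    rw [map_sum, map_sum, ← Finset.sum_sub_distrib]
    have h3 : ∀ α ∈ p.support, (C (monomial α (coeff α p)) - map C (monomial α (coeff α p)) : R2 n)
        = ∑ j, (C (X j) - X j) * (C (C (coeff α p)) * θ α j) := by
      intro α _
      have h4 : monomial α (coeff α p) = C (coeff α p) * monomial α 1 := by
        rw [C_mul_monomial, mul_one]
      rw [h4, map_mul, map_mul, map_C, ← mul_sub, h2 α, Finset.mul_sum]
      apply Finset.sum_congr rfl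
      intro j _
      ring
    rw [Finset.sum_congr rfl h3, Finset.sum_comm]
    apply Finset.sum_congr rfl
    intro j _
    rw [Finset.mul_sum]

end Pool.Agent.Lib.Helper77.Disc
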