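import Pool.Agent.Lib.Helper77.Disc.PartA2

/-!
# The top degree of a complete intersection is spanned by one element
-/

set_option autoImplicit false

open MvPolynomial Matrix

namespace Pool.Agent.Lib.Helper77.Disc

variable {n : ℕ}

/-- The `z`-linear extension of a functional in the variables `y`. -/
noncomputable def extend (ψ : MvPolynomial (Fin n) ℂ →ₗ[ℂ] ℂ) :
    R2 n →ₗ[MvPolynomial (Fin n) ℂ] MvPolynomial (Fin n) ℂ :=
  (basisMonomials (Fin n) (MvPolynomial (Fin n) ℂ)).constr (MvPolynomial (Fin n) ℂ)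
    (fun b => C (ψ (monomial b 1)))

theorem extend_monomial (ψ : MvPolynomial (Fin n) ℂ →ₗ[ℂ] ℂ) (b : Fin n →₀ ℕ)
    (c : MvPolynomial (Fin n) ℂ) : extend ψ (monomial b c) = c * C (ψ (monomial b 1)) := by
  have h : (monomial b c : R2 n) = c • monomial b 1 := by
    rw [smul_monomial, smul_eq_mul, mul_one]
  rw [h, map_smul, smul_eq_mul]
  congr 1
  have := (basisMonomials (Fin n) (MvPolynomial (Fin n) ℂ)).constr_basis
    (MvPolynomial (Fin n) ℂ) (fun b => (C (ψ (monomial b 1)) : MvPolynomial (Fin n) ℂ)) b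
  rw [coe_basisMonomials] at this
  exact this

theorem extend_eq_sum (ψ : MvPolynomial (Fin n) ℂ →ₗ[ℂ] ℂ) (P : R2 n) :
    extend ψ P = ∑ b ∈ P.support, coeff b P * C (ψ (monomial b 1)) := by
  conv_lhs => rw [P.as_sum]
  rw [map_sum]
  apply Finset.sum_congr rfl
  intro b _
  rw [extend_monomial]

theorem extend_map (ψ : MvPolynomial (Fin n) ℂ →ₗ[ℂ] ℂ) (w : MvPolynomial (Fin n) ℂ) :
    extend ψ (map C w) = C (ψ w) := by
  conv_lhs => rw [w.as_sum]
  conv_rhs => rw [w.as_sum]
  rw [map_sum, map_sum, map_sum, map_sum]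
  apply Finset.sum_congr rfl
  intro b _
  rw [map_monomial, extend_monomial, ← map_mul]
  congr 1
  have h : (monomial b (coeff b w)) = (coeff b w) • monomial b (1 : ℂ) := by
    rw [smul_monomial, smul_eq_mul, mul_one]
  rw [h, map_smul, smul_eq_mul]

theorem extend_C_mul (ψ : MvPolynomial (Fin n) ℂ →ₗ[ℂ] ℂ) (p : MvPolynomial (Fin n) ℂ)
    (P : R2 n) : extend ψ (C p * P) = p * extend ψ P := by
  rw [← smul_eq_C_mul, map_smul, smul_eq_mul]

/-- `Ψ(q(y) e)` computed by expanding `e`. -/
theorem extend_map_mul (ψ : MvPolynomial (Fin n) ℂ →ₗ[ℂ] ℂ) (q : MvPolynomial (Fin n) ℂ)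
    (P : R2 n) :
    extend ψ (map C q * P) = ∑ b ∈ P.support, coeff b P * C (ψ (q * monomial b 1)) := by
  conv_lhs => rw [P.as_sum]
  rw [Finset.mul_sum, map_sum]
  apply Finset.sum_congr rfl
  intro b _
  have h : (map C q * monomial b (coeff b P) : R2 n) =
      C (coeff b P) * map C (q * monomial b 1) := by
    rw [map_mul, map_monomial, map_one]
    have : (monomial b (coeff b P) : R2 n) = C (coeff b P) * monomial b 1 := by
      rw [C_mul_monomial, mul_one]
    rw [this]
    ring
  rw [h, extend_C_mul, extend_map]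

theorem homogeneousComponent_mem_sysIdeal {δ : ℕ} (g : Fin n → MvPolynomial (Fin n) ℂ)
    (hg : ∀ i, (g i).IsHomogeneous δ) (k : ℕ) {x : MvPolynomial (Fin n) ℂ}
    (hx : x ∈ sysIdeal g) : homogeneousComponent k x ∈ sysIdeal g := by
  let _ := MvPolynomial.gradedAlgebra (σ := Fin n) (R := ℂ)
  apply homogeneousComponent_mem_of_mem _ hx
  apply Ideal.homogeneous_span
  rintro _ ⟨i, rfl⟩
  exact ⟨δ, hg i⟩

/-- **Part A2.** In the degree `n (δ - 1)` the quotient by the ideal of the system is spanned by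
one element. -/
theorem exists_span_top (g : Fin n → MvPolynomial (Fin n) ℂ) (δ : ℕ) (hδ : 1 ≤ δ)
    (hgh : ∀ i, (g i).IsHomogeneous δ) (hg : NoCommonZero g) :
    ∃ s : MvPolynomial (Fin n) ℂ, ∀ h : MvPolynomial (Fin n) ℂ, h.IsHomogeneous (n * (δ - 1)) →
      ∃ c : ℂ, h - C c * s ∈ sysIdeal g := by
  classical
  choose θ hθ1 hθ2 using fun i => hasQuot_of_isHomogeneous (g i) δ (hgh i)
  set ρ := n * (δ - 1) with hρ
  have hρn : ρ + n = n * δ := by
    rw [hρ]
    obtain ⟨k, rfl⟩ : ∃ k, δ = k + 1 := ⟨δ - 1, by omega⟩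
    simp
    ring
  let Θ : R2 n := (Matrix.of θ).det
  have hΘ : ∀ b a, coeff a (coeff b Θ) ≠ 0 → a.degree + b.degree = ρ := by
    intro b a h
    have h1 := Bihom.det (e := 1) (k := δ) (Matrix.of θ) (fun i j => hθ1 i j)
    have h2 := h1 b a h
    rw [mul_one, ← hρn] at h2
    omega
  have hg0 : ∀ i, constantCoeff (g i) = 0 := by
    intro i
    rw [constantCoeff_eq]
    apply (hgh i).coeff_eq_zero
    simp
    omega
  -- the matrix in the variables `y`
  let M1 : Matrix (Fin n) (Fin n) (MvPolynomial (Fin n) ℂ) :=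
    (MvPolynomial.map (constantCoeff (R := ℂ) (σ := Fin n))).mapMatrix (Matrix.of θ)
  have hM1 : ∀ i, ∑ j, M1 i j * X j = g i := by
    intro i
    have h1 := congrArg (MvPolynomial.map (constantCoeff (R := ℂ) (σ := Fin n))) (hθ2 i)
    rw [map_sub, map_C, hg0, MvPolynomial.map_map, map_sum] at h1
    have h2 : (constantCoeff (R := ℂ) (σ := Fin n)).comp C = RingHom.id ℂ := by
      ext x
      simp
    rw [h2, MvPolynomial.map_id] at h1
    simp only [map_mul, map_sub, map_C, map_X, constantCoeff_X, C_0, zero_sub] at h1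
    have h3 : ∑ j, M1 i j * X j = - ∑ j, -X j * (MvPolynomial.map constantCoeff) (θ i j) := by
      rw [← Finset.sum_neg_distrib]
      apply Finset.sum_congr rfl
      intro j _
      simp only [M1, RingHom.mapMatrix_apply, Matrix.map_apply, Matrix.of_apply]
      ring
    rw [h3, ← h1]
    simp
  have hM1det : M1.det = MvPolynomial.map (constantCoeff (R := ℂ) (σ := Fin n)) Θ := by
    rw [RingHom.map_det]
  have hM1not := det_notMem g hg M1 hM1
  -- the functional
  obtain ⟨ψ0, hψ0, hψ0'⟩ := Submodule.exists_le_ker_of_notMem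
    (p := (sysIdeal g).restrictScalars ℂ) (v := M1.det) hM1not
  let ψ : MvPolynomial (Fin n) ℂ →ₗ[ℂ] ℂ := ψ0 ∘ₗ (homogeneousComponent ρ)
  have hψI : ∀ x ∈ sysIdeal g, ψ x = 0 := by
    intro x hx
    exact hψ0' (homogeneousComponent_mem_sysIdeal g hgh ρ hx)
  have hψdeg : ∀ (x : MvPolynomial (Fin n) ℂ) (k : ℕ), x.IsHomogeneous k → k ≠ ρ → ψ x = 0 := by
    intro x k hx hk
    change ψ0 (homogeneousComponent ρ x) = 0
    rw [homogeneousComponent_of_mem (n := k) hx, if_neg (fun h => hk h.symm), map_zero]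
  have hM1hom : M1.det.IsHomogeneous ρ := by
    intro b hb
    rw [hM1det, coeff_map, constantCoeff_eq] at hb
    have := hΘ b 0 hb
    rw [map_zero, zero_add] at this
    rw [← this, Finsupp.degree_eq_weight_one]
    rfl
  have hψ1 : ψ M1.det = ψ0 M1.det := by
    change ψ0 (homogeneousComponent ρ M1.det) = _
    rw [homogeneousComponent_of_mem (n := ρ) hM1hom, if_pos rfl]
  -- the value of `Ψ` on `Θ`
  have hΨΘ : extend ψ Θ = C (ψ M1.det) := by
    rw [← extend_map, extend_eq_sum, extend_eq_sum]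
    have hsub : (MvPolynomial.map C M1.det : R2 n).support ⊆ Θ.support := by
      intro b hb
      rw [mem_support_iff] at hb ⊢
      intro h
      apply hb
      rw [coeff_map, hM1det, coeff_map, h]
      simp
    rw [← Finset.sum_subset hsub]
    · apply Finset.sum_congr rfl
      intro b hb
      by_cases hbρ : b.degree = ρ
      · congr 1
        rw [coeff_map, hM1det, coeff_map]
        ext a
        rw [coeff_C]
        split_ifs with ha
        · rw [← ha, constantCoeff_eq]
        · by_contra hne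
          have := hΘ b a hne
          rw [hbρ] at this
          have ha0 : a.degree = 0 := by omega
          rw [Finsupp.degree_eq_zero_iff] at ha0
          exact ha ha0.symm
      · rw [hψdeg (monomial b 1) b.degree (isHomogeneous_monomial 1 rfl) hbρ]
        simp
    · intro b hb hb'
      by_cases hbρ : b.degree = ρ
      · rw [notMem_support_iff, coeff_map, hM1det, coeff_map] at hb'
        have h0 : coeff b Θ = 0 := by
          ext a
          rw [coeff_zero]
          by_contra hne
          have h1 := hΘ b a hne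
          rw [hbρ] at h1
          have ha0 : a.degree = 0 := by omega
          rw [Finsupp.degree_eq_zero_iff] at ha0
          rw [ha0] at hne
          apply hne
          have := (C_eq_zero (σ := Fin n) (R := ℂ)).1 hb'
          rw [constantCoeff_eq] at this
          exact this
        rw [h0, zero_mul]
      · rw [hψdeg (monomial b 1) b.degree (isHomogeneous_monomial 1 rfl) hbρ]
        simp
  -- multiplication by the differences
  have hCr : ∀ j, ∃ e : Fin n → R2 n,
      (C (X j) - X j) * Θ = ∑ i, (C (g i) - MvPolynomial.map C (g i)) * e i := by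
    intro j
    refine ⟨fun i => (Matrix.of θ).adjugate j i, ?_⟩
    have h2 := congrFun (congrArg (fun A => A *ᵥ (fun j => (C (X j) - X j : R2 n)))
      (adjugate_mul (Matrix.of θ))) j
    simp only [← mulVec_mulVec] at h2
    rw [smul_mulVec, one_mulVec, Pi.smul_apply, smul_eq_mul] at h2
    rw [mul_comm, ← h2]
    change ∑ i, (Matrix.of θ).adjugate j i * (∑ l, θ i l * (C (X l) - X l)) = _
    apply Finset.sum_congr rfl
    intro i _
    have h3 : ∑ l, θ i l * (C (X l) - X l) = ∑ j, (C (X j) - X j) * θ i j :=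
      Finset.sum_congr rfl (fun l _ => mul_comm _ _)
    rw [h3, ← hθ2 i, mul_comm]
  choose e he using hCr
  refine ⟨C ((ψ M1.det)⁻¹) * coeff 0 Θ, ?_⟩
  intro h hh
  refine ⟨ψ h, ?_⟩
  obtain ⟨η, -, hη⟩ := hasQuot_of_isHomogeneous h ρ hh
  -- the main identity
  have hmain : (C h - MvPolynomial.map C h) * Θ =
      ∑ i, (C (g i) - MvPolynomial.map C (g i)) * ∑ j, η j * e j i := by
    rw [hη, Finset.sum_mul]
    have h1 : ∀ j ∈ (Finset.univ : Finset (Fin n)), (C (X j) - X j) * η j * Θ =
        ∑ i, (C (g i) - MvPolynomial.map C (g i)) * (η j * e j i) := by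
      intro j _
      have : (C (X j) - X j) * η j * Θ = η j * ((C (X j) - X j) * Θ) := by ring
      rw [this, he j, Finset.mul_sum]
      apply Finset.sum_congr rfl
      intro i _
      ring
    rw [Finset.sum_congr rfl h1, Finset.sum_comm]
    apply Finset.sum_congr rfl
    intro i _
    rw [Finset.mul_sum]
  have hmem : extend ψ ((C h - MvPolynomial.map C h) * Θ) ∈ sysIdeal g := by
    rw [hmain, map_sum]
    apply Ideal.sum_mem
    intro i _
    rw [sub_mul, map_sub, extend_C_mul, extend_map_mul]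
    apply Ideal.sub_mem
    · exact Ideal.mul_mem_right _ _ (Ideal.subset_span ⟨i, rfl⟩)
    · have h0 : ∀ P : R2 n, ∑ b ∈ P.support, coeff b P * C (ψ (g i * monomial b 1)) = 0 := by
        intro P
        apply Finset.sum_eq_zero
        intro b _
        rw [hψI _ (Ideal.mul_mem_right _ _ (Ideal.subset_span ⟨i, rfl⟩))]
        simp
      rw [h0]
      exact Ideal.zero_mem _
  rw [sub_mul, map_sub, extend_C_mul, extend_map_mul, hΨΘ] at hmem
  have hlast : ∑ b ∈ Θ.support, coeff b Θ * C (ψ (h * monomial b 1)) = coeff 0 Θ * C (ψ h) := by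
    rw [Finset.sum_eq_single 0]
    · rw [monomial_zero', C_1, mul_one]
    · intro b _ hb0
      rw [hψdeg (h * monomial b 1) (ρ + b.degree) (hh.mul (isHomogeneous_monomial 1 rfl))]
      · simp
      · intro hk
        apply hb0
        rw [← Finsupp.degree_eq_zero_iff]
        omega
    · intro h0
      rw [notMem_support_iff] at h0
      rw [h0, zero_mul]
  rw [hlast] at hmem
  have hne : ψ M1.det ≠ 0 := by
    rw [hψ1]
    exact hψ0
  have hfin : h - C (ψ h) * (C ((ψ M1.det)⁻¹) * coeff 0 Θ) =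
      C ((ψ M1.det)⁻¹) * (h * C (ψ M1.det) - coeff 0 Θ * C (ψ h)) := by
    have h1 : (C ((ψ M1.det)⁻¹) * C (ψ M1.det) : MvPolynomial (Fin n) ℂ) = 1 := by
      rw [← C_mul, inv_mul_cancel₀ hne, C_1]
    calc h - C (ψ h) * (C ((ψ M1.det)⁻¹) * coeff 0 Θ)
        = (C ((ψ M1.det)⁻¹) * C (ψ M1.det)) * h -
          C (ψ h) * (C ((ψ M1.det)⁻¹) * coeff 0 Θ) := by rw [h1, one_mul]
      _ = _ := by ring
  rw [hfin]
  exact Ideal.mul_mem_left _ _ hmem

end Pool.Agent.Lib.Helper77.Disc
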