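import Pool.Agent.Lib.Helper77.Disc.PartA3
import Pool.Agent.Lib.Helper77.Disc.Defs

/-!
# The Milnor algebra of a nondegenerate form
-/

set_option autoImplicit false

open MvPolynomial Matrix

namespace Pool.Agent.Lib.Helper77.Disc

noncomputable instance (n k : ℕ) : Fintype (Expo n k) :=
  @Fintype.ofFinite _ (Finsupp.finite_of_degree_eq k).to_subtype

section

variable {n : ℕ}

theorem pderiv_comm' {R : Type*} [CommRing R] (i j : Fin n) (f : MvPolynomial (Fin n) R) :
    pderiv i (pderiv j f) = pderiv j (pderiv i f) := by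
  have h : ⁅(pderiv i : Derivation R (MvPolynomial (Fin n) R) (MvPolynomial (Fin n) R)),
      (pderiv j : Derivation R (MvPolynomial (Fin n) R) (MvPolynomial (Fin n) R))⁆ =
      (0 : Derivation R (MvPolynomial (Fin n) R)
      (MvPolynomial (Fin n) R)) := by
    apply MvPolynomial.derivation_ext
    intro k
    rw [Derivation.commutator_apply]
    rcases eq_or_ne j k with h | h
    · rcases eq_or_ne i k with h' | h'
      · subst h; subst h'; simp
      · subst h; simp [pderiv_X_of_ne h'.symm]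
    · rcases eq_or_ne i k with h' | h'
      · subst h'; simp [pderiv_X_of_ne h.symm]
      · simp [pderiv_X_of_ne h.symm, pderiv_X_of_ne h'.symm]
  have h2 := congrArg (fun D => D f) h
  simp only [Derivation.commutator_apply, Derivation.zero_apply] at h2
  exact sub_eq_zero.1 h2

theorem hessianDet_isHomogeneous {R : Type*} [CommRing R] (f : MvPolynomial (Fin n) R) (d : ℕ)
    (hf : f.IsHomogeneous d) : (hessianDet f).IsHomogeneous (n * (d - 2)) := by
  rw [hessianDet, det_apply]
  apply IsHomogeneous.sum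
  intro σ _
  have h1 : (∏ i, (Matrix.of fun i j : Fin n => pderiv i (pderiv j f)) (σ i) i).IsHomogeneous
      (n * (d - 2)) := by
    have := IsHomogeneous.prod (Finset.univ : Finset (Fin n))
      (fun i => (Matrix.of fun i j : Fin n => pderiv i (pderiv j f)) (σ i) i)
      (fun _ => d - 2) (fun i _ => by
        have := (hf.pderiv (i := i)).pderiv (i := σ i)
        simpa [Nat.sub_sub] using this)
    simpa using this
  rcases Int.units_eq_one_or (Equiv.Perm.sign σ) with h2 | h2
  · rw [h2, one_smul]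
    exact h1
  · rw [h2, Units.neg_smul, one_smul]
    exact h1.neg

theorem hessianDet_map {R S : Type*} [CommRing R] [CommRing S] (φ : R →+* S)
    (f : MvPolynomial (Fin n) R) :
    hessianDet (MvPolynomial.map φ f) = MvPolynomial.map φ (hessianDet f) := by
  rw [hessianDet, hessianDet, RingHom.map_det]
  congr 1
  funext i j
  simp only [of_apply, RingHom.mapMatrix_apply, Matrix.map_apply, pderiv_map]

theorem jacobianIdeal_map {R S : Type*} [CommRing R] [CommRing S] (φ : R →+* S)
    (f : MvPolynomial (Fin n) R) {x : MvPolynomial (Fin n) R} (hx : x ∈ jacobianIdeal f) :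
    MvPolynomial.map φ x ∈ jacobianIdeal (MvPolynomial.map φ f) := by
  rw [jacobianIdeal] at hx ⊢
  have := Ideal.mem_map_of_mem (MvPolynomial.map φ) hx
  rw [Ideal.map_span, ← Set.range_comp] at this
  have h2 : (⇑(MvPolynomial.map φ) ∘ fun i => pderiv i f) =
      fun i : Fin n => pderiv i (MvPolynomial.map φ f) := by
    funext i
    simp [pderiv_map]
  rw [h2] at this
  exact this

theorem euler_hessian (f : MvPolynomial (Fin n) ℂ) (d : ℕ) (hf : f.IsHomogeneous d) (i : Fin n) :
    ∑ j, X j * pderiv j (pderiv i f) = C ((d - 1 : ℕ) : ℂ) * pderiv i f := by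
  rw [(hf.pderiv (i := i)).sum_X_mul_pderiv, nsmul_eq_mul]
  simp

theorem noCommonZero_of_not_degenerate (f : MvPolynomial (Fin n) ℂ) (hf : ¬ IsDegenerate f) :
    NoCommonZero (fun i => pderiv i f) := by
  intro z hz
  by_contra hne
  exact hf ⟨z, hne, hz⟩

/-- The Hessian of a nondegenerate form is not in the Jacobian ideal. -/
theorem hessianDet_notMem (f : MvPolynomial (Fin n) ℂ) (d : ℕ) (hd : 2 ≤ d)
    (hf : f.IsHomogeneous d) (hnd : ¬ IsDegenerate f) : hessianDet f ∉ jacobianIdeal f := by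
  have hd1 : ((d - 1 : ℕ) : ℂ) ≠ 0 := by
    rw [Nat.cast_ne_zero]
    omega
  let M : Matrix (Fin n) (Fin n) (MvPolynomial (Fin n) ℂ) :=
    (C (((d - 1 : ℕ) : ℂ)⁻¹) : MvPolynomial (Fin n) ℂ) • (Matrix.of fun i j : Fin n => pderiv i (pderiv j f))
  have hM : ∀ i, ∑ j, M i j * X j = pderiv i f := by
    intro i
    have h1 : ∑ j, M i j * X j = C (((d - 1 : ℕ) : ℂ)⁻¹) * ∑ j, X j * pderiv j (pderiv i f) := by
      rw [Finset.mul_sum]
      apply Finset.sum_congr rfl
      intro j _
      simp only [M, Matrix.smul_apply, of_apply, smul_eq_mul]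
      rw [pderiv_comm' i j]
      ring
    rw [h1, euler_hessian f d hf i, ← mul_assoc, ← C_mul, inv_mul_cancel₀ hd1, C_1, one_mul]
  have h2 := det_notMem _ (noCommonZero_of_not_degenerate f hnd) M hM
  intro hmem
  apply h2
  have h3 : M.det = C (((d - 1 : ℕ) : ℂ)⁻¹) ^ n * hessianDet f := by
    simp only [M]
    rw [det_smul, Fintype.card_fin]
    rfl
  rw [h3]
  exact Ideal.mul_mem_left _ _ hmem

/-- In degree `n (d - 2)` the Milnor algebra is spanned by the Hessian. -/
theorem exists_sub_hessianDet_mem (f : MvPolynomial (Fin n) ℂ) (d : ℕ) (hd : 2 ≤ d)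
    (hf : f.IsHomogeneous d) (hnd : ¬ IsDegenerate f) (h : MvPolynomial (Fin n) ℂ)
    (hh : h.IsHomogeneous (n * (d - 2))) :
    ∃ c : ℂ, h - C c * hessianDet f ∈ jacobianIdeal f := by
  obtain ⟨s, hs⟩ := exists_span_top (fun i => pderiv i f) (d - 1) (by omega)
    (fun i => hf.pderiv) (noCommonZero_of_not_degenerate f hnd)
  have hd2 : d - 1 - 1 = d - 2 := by omega
  rw [hd2] at hs
  obtain ⟨c0, hc0⟩ := hs (hessianDet f) (hessianDet_isHomogeneous f d hf)
  obtain ⟨c1, hc1⟩ := hs h hh
  have hc0' : hessianDet f - C c0 * s ∈ jacobianIdeal f := hc0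
  have hc1' : h - C c1 * s ∈ jacobianIdeal f := hc1
  have hne : c0 ≠ 0 := by
    intro h0
    rw [h0, C_0, zero_mul, sub_zero] at hc0'
    exact hessianDet_notMem f d hd hf hnd hc0'
  refine ⟨c1 * c0⁻¹, ?_⟩
  have h4 : h - C (c1 * c0⁻¹) * hessianDet f =
      (h - C c1 * s) - C (c1 * c0⁻¹) * (hessianDet f - C c0 * s) := by
    have h5 : (C (c1 * c0⁻¹) * C c0 : MvPolynomial (Fin n) ℂ) = C c1 := by
      rw [← C_mul, mul_assoc, inv_mul_cancel₀ hne, mul_one]
    rw [mul_sub, ← mul_assoc, h5]
    ring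
  rw [h4]
  exact Ideal.sub_mem _ hc1' (Ideal.mul_mem_left _ _ hc0')

/-- At a singular point everything vanishes. -/
theorem eval_hessianDet_eq_zero (f : MvPolynomial (Fin n) ℂ) (d : ℕ)
    (hf : f.IsHomogeneous d) (z : Fin n → ℂ) (hz : z ≠ 0) (hzf : ∀ i, eval z (pderiv i f) = 0) :
    eval z (hessianDet f) = 0 := by
  rw [hessianDet, RingHom.map_det]
  rw [← exists_mulVec_eq_zero_iff]
  refine ⟨z, hz, ?_⟩
  funext i
  have h1 := congrArg (eval z) (euler_hessian f d hf i)
  rw [map_sum, map_mul, hzf i, mul_zero] at h1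
  rw [Pi.zero_apply, ← h1]
  change ∑ j, _ * z j = _
  apply Finset.sum_congr rfl
  intro j _
  simp only [RingHom.mapMatrix_apply, Matrix.map_apply, of_apply, map_mul, eval_X]
  rw [pderiv_comm' i j, mul_comm]

end

end Pool.Agent.Lib.Helper77.Disc
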