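import Pool.Agent.Lib.Helper77.Disc.PartB

/-!
# Determinants in the top degree for the generic form
-/

set_option autoImplicit false

open MvPolynomial Matrix

namespace Pool.Agent.Lib.Helper77.Disc

/-- The generic form. -/
noncomputable def genForm (n d : ℕ) : MvPolynomial (Fin n) (CoeffRing n d) :=
  ∑ α : Expo n d, monomial α.1 (X α)

/-- The column polynomials. -/
noncomputable def col {n e : ℕ} {R : Type*} [CommRing R] (f : MvPolynomial (Fin n) R) :
    Option (Fin n × Expo n e) → MvPolynomial (Fin n) R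
  | none => hessianDet f
  | some (i, γ) => monomial γ.1 1 * pderiv i f

/-- The matrix of coefficients of the columns. -/
noncomputable def colMatrix {n e ρ : ℕ} {R : Type*} [CommRing R]
    (κ : Expo n ρ → Option (Fin n × Expo n e)) (f : MvPolynomial (Fin n) R) :
    Matrix (Expo n ρ) (Expo n ρ) R :=
  Matrix.of fun β' β => coeff β'.1 (col f (κ β))

section

variable {n d e ρ : ℕ}

theorem eq_sum_expo {R : Type*} [CommRing R] (P : MvPolynomial (Fin n) R) (k : ℕ)
    (hP : P.IsHomogeneous k) : P = ∑ β : Expo n k, monomial β.1 (coeff β.1 P) := by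
  classical
  ext β
  rw [coeff_sum]
  by_cases hβ : β.degree = k
  · rw [Finset.sum_eq_single (⟨β, hβ⟩ : Expo n k)]
    · rw [coeff_monomial, if_pos rfl]
    · intro α _ hα
      rw [coeff_monomial, if_neg]
      intro h
      exact hα (Subtype.ext h)
    · simp
  · rw [hP.coeff_eq_zero hβ]
    symm
    apply Finset.sum_eq_zero
    intro α _
    rw [coeff_monomial, if_neg]
    intro h
    exact hβ (h ▸ α.2)

theorem genForm_isHomogeneous (n d : ℕ) : (genForm n d).IsHomogeneous d := by
  apply IsHomogeneous.sum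
  intro α _
  exact isHomogeneous_monomial _ α.2

theorem map_genForm_eval (f : MvPolynomial (Fin n) ℂ) (hf : f.IsHomogeneous d) :
    MvPolynomial.map (eval (fun α : Expo n d => coeff α.1 f)) (genForm n d) = f := by
  classical
  rw [genForm, map_sum]
  simp only [map_monomial, eval_X]
  ext β
  rw [coeff_sum]
  by_cases hβ : β.degree = d
  · rw [Finset.sum_eq_single (⟨β, hβ⟩ : Expo n d)]
    · rw [coeff_monomial, if_pos rfl]
    · intro α _ hα
      rw [coeff_monomial, if_neg]
      intro h
      exact hα (Subtype.ext h)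
    · simp
  · rw [hf.coeff_eq_zero hβ]
    apply Finset.sum_eq_zero
    intro α _
    rw [coeff_monomial, if_neg]
    intro h
    exact hβ (h ▸ α.2)

theorem col_map {R S : Type*} [CommRing R] [CommRing S] (φ : R →+* S)
    (f : MvPolynomial (Fin n) R) (c : Option (Fin n × Expo n e)) :
    col (MvPolynomial.map φ f) c = MvPolynomial.map φ (col f c) := by
  rcases c with _ | ⟨i, γ⟩
  · exact hessianDet_map φ f
  · simp only [col, map_mul, map_monomial, map_one, pderiv_map]

theorem colMatrix_map {R S : Type*} [CommRing R] [CommRing S] (φ : R →+* S)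
    (κ : Expo n ρ → Option (Fin n × Expo n e)) (f : MvPolynomial (Fin n) R) :
    (colMatrix κ (MvPolynomial.map φ f)).det = φ (colMatrix κ f).det := by
  rw [RingHom.map_det]
  congr 1
  funext β' β
  simp only [colMatrix, of_apply, RingHom.mapMatrix_apply, Matrix.map_apply, col_map, coeff_map]

theorem col_isHomogeneous {R : Type*} [CommRing R] (hρ : ρ = n * (d - 2)) (he : e + (d - 1) = ρ)
    (f : MvPolynomial (Fin n) R) (hf : f.IsHomogeneous d) (c : Option (Fin n × Expo n e)) :
    (col f c).IsHomogeneous ρ := by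
  rcases c with _ | ⟨i, γ⟩
  · rw [hρ]
    exact hessianDet_isHomogeneous f d hf
  · rw [← he]
    exact (isHomogeneous_monomial _ γ.2).mul hf.pderiv

/-- Cramer's rule. -/
theorem cramer_mem {R : Type*} [CommRing R] (hρ : ρ = n * (d - 2)) (he : e + (d - 1) = ρ)
    (f : MvPolynomial (Fin n) R) (hf : f.IsHomogeneous d)
    (κ : Expo n ρ → Option (Fin n × Expo n e)) (β : Expo n ρ) :
    ∃ N : R, monomial β.1 (colMatrix κ f).det - C N * hessianDet f ∈ jacobianIdeal f := by
  classical
  set L := colMatrix κ f with hL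
  set x := cramer L (Pi.single β 1) with hx
  have hcr := mulVec_cramer L (Pi.single β 1)
  rw [← hx] at hcr
  have hsum : ∑ γ, C (x γ) * col f (κ γ) = monomial β.1 L.det := by
    ext β'
    rw [coeff_sum]
    simp only [coeff_C_mul]
    by_cases hβ' : β'.degree = ρ
    · have h1 := congrFun hcr ⟨β', hβ'⟩
      simp only [mulVec, dotProduct, Pi.smul_apply, smul_eq_mul] at h1
      have h2 : ∑ γ, x γ * coeff β' (col f (κ γ)) = ∑ γ, L ⟨β', hβ'⟩ γ * x γ := by
        apply Finset.sum_congr rfl
        intro γ _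
        rw [mul_comm]
        rfl
      rw [h2, h1, coeff_monomial]
      by_cases h3 : β.1 = β'
      · rw [if_pos h3]
        have h4 : (⟨β', hβ'⟩ : Expo n ρ) = β := Subtype.ext h3.symm
        rw [h4, Pi.single_eq_same, mul_one]
      · rw [if_neg h3, Pi.single_eq_of_ne, mul_zero]
        intro h4
        apply h3
        rw [← h4]
    · rw [coeff_monomial, if_neg (by intro h; exact hβ' (by rw [← h]; exact β.2))]
      apply Finset.sum_eq_zero
      intro γ _
      rw [(col_isHomogeneous hρ he f hf (κ γ)).coeff_eq_zero hβ', mul_zero]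
  refine ⟨∑ γ, if κ γ = none then x γ else 0, ?_⟩
  rw [← hsum, map_sum, Finset.sum_mul, ← Finset.sum_sub_distrib]
  apply Ideal.sum_mem
  intro γ _
  rcases hγ : κ γ with _ | ⟨i, δ⟩
  · simp [col]
  · simp only [reduceCtorEq, if_false, map_zero, zero_mul, sub_zero, col]
    apply Ideal.mul_mem_left
    apply Ideal.mul_mem_left
    exact Ideal.subset_span ⟨i, rfl⟩

/-- A nondegenerate form has a nonvanishing determinant. -/
theorem exists_det_ne_zero (hd : 2 ≤ d) (hρ : ρ = n * (d - 2)) (he : e + (d - 1) = ρ)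
    (f : MvPolynomial (Fin n) ℂ) (hf : f.IsHomogeneous d) (hnd : ¬ IsDegenerate f) :
    ∃ κ : Expo n ρ → Option (Fin n × Expo n e), (colMatrix κ f).det ≠ 0 := by
  classical
  let Λ : MvPolynomial (Fin n) ℂ →ₗ[ℂ] (Expo n ρ → ℂ) :=
    LinearMap.pi (fun β' => lcoeff ℂ β'.1)
  have hΛ : ∀ p β', Λ p β' = coeff β'.1 p := fun p β' => rfl
  let v : Option (Fin n × Expo n e) → (Expo n ρ → ℂ) := fun c => Λ (col f c)
  -- elements of the ideal
  have hI : ∀ x ∈ jacobianIdeal f, Λ x ∈ Submodule.span ℂ (Set.range v) := by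
    intro x hx
    rw [jacobianIdeal, Ideal.mem_span_range_iff_exists_fun] at hx
    obtain ⟨p, rfl⟩ := hx
    rw [map_sum]
    apply Submodule.sum_mem
    intro i _
    conv in (p i) => rw [(p i).as_sum]
    rw [Finset.sum_mul, map_sum]
    apply Submodule.sum_mem
    intro γ _
    have h1 : (monomial γ (coeff γ (p i)) * pderiv i f : MvPolynomial (Fin n) ℂ) =
        coeff γ (p i) • (monomial γ 1 * pderiv i f) := by
      rw [← smul_mul_assoc, smul_monomial, smul_eq_mul, mul_one]
    rw [h1, map_smul]
    apply Submodule.smul_mem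
    by_cases hγ : γ.degree = e
    · exact Submodule.subset_span ⟨some (i, ⟨γ, hγ⟩), rfl⟩
    · have h2 : Λ (monomial γ 1 * pderiv i f) = 0 := by
        funext β'
        rw [hΛ]
        have h3 : (monomial γ (1 : ℂ) * pderiv i f).IsHomogeneous (γ.degree + (d - 1)) :=
          (isHomogeneous_monomial _ rfl).mul hf.pderiv
        rw [h3.coeff_eq_zero]
        · rfl
        · rw [β'.2]
          omega
      rw [h2]
      exact Submodule.zero_mem _
  have hspan : Submodule.span ℂ (Set.range v) = ⊤ := by
    rw [eq_top_iff]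
    intro w _
    have h1 : w = ∑ β, w β • Λ (monomial β.1 1) := by
      funext β'
      rw [Finset.sum_apply, Finset.sum_eq_single β']
      · rw [Pi.smul_apply, hΛ, coeff_monomial, if_pos rfl, smul_eq_mul, mul_one]
      · intro β _ hβ
        rw [Pi.smul_apply, hΛ, coeff_monomial, if_neg, smul_zero]
        intro h
        exact hβ (Subtype.ext h)
      · simp
    rw [h1]
    apply Submodule.sum_mem
    intro β _
    apply Submodule.smul_mem
    obtain ⟨c, hc⟩ := exists_sub_hessianDet_mem f d hd hf hnd (monomial β.1 1)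
      (isHomogeneous_monomial _ (by rw [β.2, hρ]))
    have h2 := hI _ hc
    rw [map_sub, ← smul_eq_C_mul, map_smul] at h2
    have h3 : Λ (hessianDet f) ∈ Submodule.span ℂ (Set.range v) :=
      Submodule.subset_span ⟨none, rfl⟩
    have h4 := Submodule.add_mem _ h2 (Submodule.smul_mem _ c h3)
    rwa [sub_add_cancel] at h4
  obtain ⟨κ', a, -, hsp, hli⟩ := exists_linearIndependent' ℂ v
  rw [hspan] at hsp
  let b : Module.Basis κ' ℂ (Expo n ρ → ℂ) := Module.Basis.mk hli (by rw [hsp])
  let E : κ' ≃ Expo n ρ := b.indexEquiv (Pi.basisFun ℂ (Expo n ρ))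
  refine ⟨a ∘ E.symm, ?_⟩
  have h1 : LinearIndependent ℂ (colMatrix (a ∘ E.symm) f).col := by
    have h2 : (colMatrix (a ∘ E.symm) f).col = (v ∘ a) ∘ E.symm := by
      funext β β'
      rfl
    rw [h2]
    exact hli.comp _ E.symm.injective
  rw [linearIndependent_cols_iff_isUnit, isUnit_iff_isUnit_det] at h1
  exact h1.ne_zero

/-- For a degenerate form all the determinants vanish. -/
theorem det_eq_zero_of_degenerate (f : MvPolynomial (Fin n) ℂ) (hf : f.IsHomogeneous d)
    (hρ : ρ = n * (d - 2)) (he : e + (d - 1) = ρ)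
    (hnd : IsDegenerate f) (κ : Expo n ρ → Option (Fin n × Expo n e)) :
    (colMatrix κ f).det = 0 := by
  classical
  obtain ⟨z, hz, hzf⟩ := hnd
  rw [← exists_vecMul_eq_zero_iff]
  refine ⟨fun β => ∏ i, z i ^ β.1 i, ?_, ?_⟩
  · intro h0
    obtain ⟨i, hi⟩ : ∃ i, z i ≠ 0 := by
      by_contra hno
      push Not at hno
      exact hz (funext hno)
    have h1 := congrFun h0 ⟨Finsupp.single i ρ, by simp⟩
    simp only [Pi.zero_apply] at h1
    rw [Finset.prod_eq_single i] at h1
    · simp at h1
      exact hi h1.1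
    · intro j _ hj
      rw [Finsupp.single_apply, if_neg (fun h => hj h.symm), pow_zero]
    · simp
  · funext β
    rw [Pi.zero_apply]
    have hcol : eval z (col f (κ β)) = 0 := by
      rcases κ β with _ | ⟨i, γ⟩
      · exact eval_hessianDet_eq_zero f d hf z hz hzf
      · simp only [col, map_mul, hzf i, mul_zero]
    rw [← hcol, eq_sum_expo (col f (κ β)) ρ (col_isHomogeneous hρ he f hf (κ β)), map_sum]
    simp only [vecMul, dotProduct, colMatrix, of_apply]
    apply Finset.sum_congr rfl
    intro β' _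
    rw [eval_monomial, mul_comm, Finsupp.prod_fintype]
    intro i
    exact pow_zero _

end

end Pool.Agent.Lib.Helper77.Disc
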