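import Pool.Agent.Lib.Helper77.Disc.PartR

/-!
# The Macaulay choice of columns
-/

set_option autoImplicit false

open MvPolynomial Matrix

namespace Pool.Agent.Lib.Helper77.Disc

section Mac

variable {n d e ρ : ℕ}

/-- The Macaulay choice: the exponent `β` is assigned to the smallest `i` with `β_i ≥ d - 1`. -/
noncomputable def macChoice (n d e ρ : ℕ) (he : e + (d - 1) = ρ) (β : Expo n ρ) :
    Option (Fin n × Expo n e) :=
  open Classical in
  if h : (Finset.univ.filter (fun i => d - 1 ≤ β.1 i)).Nonempty then
    some ((Finset.univ.filter (fun i => d - 1 ≤ β.1 i)).min' h,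
      ⟨β.1 - Finsupp.single ((Finset.univ.filter (fun i => d - 1 ≤ β.1 i)).min' h) (d - 1), by
        have h1 := (Finset.mem_filter.1
          ((Finset.univ.filter (fun i => d - 1 ≤ β.1 i)).min'_mem h)).2
        have h2 : β.1 - Finsupp.single _ (d - 1) + Finsupp.single _ (d - 1) = β.1 :=
          tsub_add_cancel_of_le (Finsupp.single_le_iff.2 h1)
        have h3 := congrArg Finsupp.degree h2
        rw [map_add, Finsupp.degree_single, β.2] at h3
        omega⟩)
  else none

theorem macChoice_none {he : e + (d - 1) = ρ} {β : Expo n ρ}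
    (h : macChoice n d e ρ he β = none) : ∀ i, β.1 i < d - 1 := by
  classical
  intro i
  by_contra hi
  push Not at hi
  have hne : (Finset.univ.filter (fun i => d - 1 ≤ β.1 i)).Nonempty :=
    ⟨i, Finset.mem_filter.2 ⟨Finset.mem_univ i, hi⟩⟩
  rw [macChoice, dif_pos hne] at h
  exact absurd h (by simp)

theorem macChoice_some {he : e + (d - 1) = ρ} {β : Expo n ρ} {i : Fin n} {γ : Expo n e}
    (h : macChoice n d e ρ he β = some (i, γ)) :
    γ.1 + Finsupp.single i (d - 1) = β.1 ∧ ∀ j, j < i → β.1 j < d - 1 := by
  classical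
  by_cases hne : (Finset.univ.filter (fun i => d - 1 ≤ β.1 i)).Nonempty
  · rw [macChoice, dif_pos hne] at h
    have h0 := Option.some.inj h
    have h1 : (Finset.univ.filter (fun i => d - 1 ≤ β.1 i)).min' hne = i := congrArg Prod.fst h0
    have h2 := congrArg (fun x => x.2.1) h0
    simp only at h2
    have h3 := (Finset.mem_filter.1
      ((Finset.univ.filter (fun i => d - 1 ≤ β.1 i)).min'_mem hne)).2
    constructor
    · rw [← h2, h1]
      rw [h1] at h3
      exact tsub_add_cancel_of_le (Finsupp.single_le_iff.2 h3)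
    · intro j hj
      by_contra hj'
      push Not at hj'
      have := (Finset.univ.filter (fun i => d - 1 ≤ β.1 i)).min'_le j
        (Finset.mem_filter.2 ⟨Finset.mem_univ j, hj'⟩)
      rw [h1] at this
      exact absurd hj (not_lt.2 this)
  · rw [macChoice, dif_neg hne] at h
    exact absurd h (by simp)

/-- The Fermat form. -/
noncomputable def fermat (n d : ℕ) : MvPolynomial (Fin n) ℂ := ∑ i, X i ^ d

theorem pderiv_fermat (i : Fin n) :
    pderiv i (fermat n d) = C (d : ℂ) * X i ^ (d - 1) := by
  classical
  rw [fermat, map_sum, Finset.sum_eq_single i]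
  · rw [pderiv_pow, pderiv_X_self]
    simp
  · intro j _ hj
    rw [pderiv_pow, pderiv_X_of_ne hj, mul_zero]
  · simp

theorem hessianDet_fermat :
    hessianDet (fermat n d) = C (((d : ℂ) * ((d - 1 : ℕ) : ℂ)) ^ n) *
      ∏ i, X i ^ (d - 2) := by
  classical
  have h1 : (Matrix.of fun i j : Fin n => pderiv i (pderiv j (fermat n d))) =
      diagonal (fun i => C ((d : ℂ) * ((d - 1 : ℕ) : ℂ)) * X i ^ (d - 2)) := by
    funext i j
    rw [of_apply, pderiv_fermat]
    by_cases hij : i = j
    · subst hij
      rw [diagonal_apply_eq, pderiv_C_mul, pderiv_pow, pderiv_X_self, C_mul]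
      have : d - 1 - 1 = d - 2 := by omega
      rw [this]
      simp
      ring
    · rw [diagonal_apply_ne _ hij, pderiv_C_mul, pderiv_pow,
        pderiv_X_of_ne (fun h => hij h.symm), mul_zero, mul_zero]
  rw [hessianDet, h1, det_diagonal, Finset.prod_mul_distrib]
  simp

/-- The Macaulay determinant does not vanish at the Fermat form. -/
theorem mac_fermat_ne_zero (hd : 2 ≤ d) (hρ : ρ = n * (d - 2)) (he : e + (d - 1) = ρ) :
    (colMatrix (macChoice n d e ρ he) (fermat n d)).det ≠ 0 := by
  classical
  have hd1 : ((d - 1 : ℕ) : ℂ) ≠ 0 := by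
    rw [Nat.cast_ne_zero]
    omega
  have hd0 : (d : ℂ) ≠ 0 := by
    rw [Nat.cast_ne_zero]
    omega
  have hcol : ∀ β : Expo n ρ, ∃ c : ℂ, c ≠ 0 ∧
      col (fermat n d) (macChoice n d e ρ he β) = monomial β.1 c := by
    intro β
    rcases h : macChoice n d e ρ he β with _ | ⟨i, γ⟩
    · refine ⟨((d : ℂ) * ((d - 1 : ℕ) : ℂ)) ^ n, pow_ne_zero _ (mul_ne_zero hd0 hd1), ?_⟩
      have h1 := macChoice_none h
      have h2 : ∀ i, β.1 i = d - 2 := by
        have hle : ∀ i ∈ (Finset.univ : Finset (Fin n)), β.1 i ≤ d - 2 := by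
          intro i _
          have := h1 i
          omega
        have hsum : ∑ i, β.1 i = ∑ i : Fin n, (d - 2) := by
          have := β.2
          rw [Finsupp.degree_eq_sum] at this
          rw [this, hρ]
          simp
        intro i
        exact (Finset.sum_eq_sum_iff_of_le hle).1 hsum i (Finset.mem_univ i)
      have h3 : β.1 = ∑ i, Finsupp.single i (d - 2) := by
        ext i
        rw [h2 i, Finsupp.finsetSum_apply, Finset.sum_eq_single i]
        · simp
        · intro j _ hj
          simp [hj]
        · simp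
      change hessianDet (fermat n d) = _
      rw [hessianDet_fermat, h3]
      have h4 : (∏ i, (X i : MvPolynomial (Fin n) ℂ) ^ (d - 2)) =
          monomial (∑ i, Finsupp.single i (d - 2)) 1 := by
        rw [monomial_sum_one]
        apply Finset.prod_congr rfl
        intro i _
        rw [X_pow_eq_monomial]
      rw [h4, C_mul_monomial, mul_one]
    · refine ⟨(d : ℂ), hd0, ?_⟩
      obtain ⟨h1, -⟩ := macChoice_some h
      change monomial γ.1 1 * pderiv i (fermat n d) = _
      rw [pderiv_fermat, X_pow_eq_monomial, C_mul_monomial, monomial_mul, h1]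
      simp
  choose c hc0 hc using hcol
  have h1 : colMatrix (macChoice n d e ρ he) (fermat n d) = diagonal c := by
    funext β' β
    rw [colMatrix, of_apply, hc, coeff_monomial]
    by_cases h : β' = β
    · subst h
      rw [if_pos rfl, diagonal_apply_eq]
    · rw [diagonal_apply_ne _ h, if_neg]
      intro h'
      exact h (Subtype.ext h'.symm)
  rw [h1, det_diagonal]
  exact Finset.prod_ne_zero_iff.2 (fun β _ => hc0 β)

end Mac

end Pool.Agent.Lib.Helper77.Disc
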