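import Pool.Agent.Lib.Helper77.Disc.PartD

/-!
# The degree in one parameter
-/

set_option autoImplicit false

open MvPolynomial Matrix

namespace Pool.Agent.Lib.Helper77.Disc

/-- All coefficients of `P` have degree at most `k` in the parameter. -/
def SDeg {n : ℕ} (k : ℕ) (P : MvPolynomial (Fin n) (Polynomial ℂ)) : Prop :=
  ∀ b, (coeff b P).natDegree ≤ k

section SDegLemmas

variable {n : ℕ}

theorem SDeg.mono {k l : ℕ} (h : k ≤ l) {P : MvPolynomial (Fin n) (Polynomial ℂ)}
    (hP : SDeg k P) : SDeg l P := fun b => (hP b).trans h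

theorem SDeg.add {k : ℕ} {P Q : MvPolynomial (Fin n) (Polynomial ℂ)}
    (hP : SDeg k P) (hQ : SDeg k Q) : SDeg k (P + Q) := by
  intro b
  rw [coeff_add]
  exact (Polynomial.natDegree_add_le _ _).trans (max_le (hP b) (hQ b))

theorem SDeg.neg {k : ℕ} {P : MvPolynomial (Fin n) (Polynomial ℂ)}
    (hP : SDeg k P) : SDeg k (-P) := by
  intro b
  rw [coeff_neg, Polynomial.natDegree_neg]
  exact hP b

theorem SDeg.sum {ι : Type*} {k : ℕ} (s : Finset ι)
    (P : ι → MvPolynomial (Fin n) (Polynomial ℂ)) (h : ∀ i ∈ s, SDeg k (P i)) :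
    SDeg k (∑ i ∈ s, P i) := by
  intro b
  rw [coeff_sum]
  exact Polynomial.natDegree_sum_le_of_forall_le _ _ (fun i hi => h i hi b)

theorem SDeg.mul {k l : ℕ} {P Q : MvPolynomial (Fin n) (Polynomial ℂ)}
    (hP : SDeg k P) (hQ : SDeg l Q) : SDeg (k + l) (P * Q) := by
  classical
  intro b
  rw [coeff_mul]
  exact Polynomial.natDegree_sum_le_of_forall_le _ _ (fun x _ =>
    (Polynomial.natDegree_mul_le).trans (add_le_add (hP _) (hQ _)))

theorem SDeg.map_C (p : MvPolynomial (Fin n) ℂ) :
    SDeg 0 (MvPolynomial.map (Polynomial.C : ℂ →+* Polynomial ℂ) p) := by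
  intro b
  rw [coeff_map, Polynomial.natDegree_C]

theorem SDeg.one : SDeg 0 (1 : MvPolynomial (Fin n) (Polynomial ℂ)) := by
  have := SDeg.map_C (1 : MvPolynomial (Fin n) ℂ)
  rwa [map_one] at this

theorem SDeg.C_X : SDeg 1 (C Polynomial.X : MvPolynomial (Fin n) (Polynomial ℂ)) := by
  classical
  intro b
  rw [coeff_C]
  split_ifs
  · exact Polynomial.natDegree_X_le
  · simp

theorem SDeg.prod {ι : Type*} (s : Finset ι) (k : ι → ℕ)
    (P : ι → MvPolynomial (Fin n) (Polynomial ℂ)) (h : ∀ i ∈ s, SDeg (k i) (P i)) :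
    SDeg (∑ i ∈ s, k i) (∏ i ∈ s, P i) := by
  classical
  induction s using Finset.induction_on with
  | empty => simpa using SDeg.one
  | insert a s ha ih =>
    rw [Finset.prod_insert ha, Finset.sum_insert ha]
    exact (h a (Finset.mem_insert_self a s)).mul
      (ih (fun i hi => h i (Finset.mem_insert_of_mem hi)))

end SDegLemmas

section Family

variable {m d e ρ : ℕ}

/-- The part of the family not depending on the parameter. -/
noncomputable def basePart (d : ℕ) (a : Fin m → ℂ) : MvPolynomial (Fin (m + 1)) ℂ :=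
  ∑ i : Fin m, X i.castSucc ^ d -
    ∑ i : Fin m, C ((d : ℂ) * a i) * (X i.castSucc * X (Fin.last m) ^ (d - 1))

/-- The family `f_s`. -/
noncomputable def family (d : ℕ) (a : Fin m → ℂ) :
    MvPolynomial (Fin (m + 1)) (Polynomial ℂ) :=
  MvPolynomial.map Polynomial.C (basePart d a) + C Polynomial.X * X (Fin.last m) ^ d

theorem basePart_isHomogeneous (hd : 1 ≤ d) (a : Fin m → ℂ) : (basePart d a).IsHomogeneous d := by
  apply IsHomogeneous.sub
  · apply IsHomogeneous.sum
    intro i _
    exact isHomogeneous_X_pow _ _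
  · apply IsHomogeneous.sum
    intro i _
    apply IsHomogeneous.C_mul
    have := (isHomogeneous_X ℂ i.castSucc).mul (isHomogeneous_X_pow (R := ℂ) (Fin.last m) (d - 1))
    have h : 1 + (d - 1) = d := by omega
    rwa [h] at this

theorem family_isHomogeneous (hd : 1 ≤ d) (a : Fin m → ℂ) : (family d a).IsHomogeneous d := by
  apply IsHomogeneous.add
  · exact (basePart_isHomogeneous hd a).map _
  · exact (isHomogeneous_X_pow _ _).C_mul _

theorem pderiv_last_pow_of_ne (i : Fin (m + 1)) (hi : i ≠ Fin.last m) :
    pderiv i ((X (Fin.last m) : MvPolynomial (Fin (m + 1)) (Polynomial ℂ)) ^ d) = 0 := by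
  rw [pderiv_pow, pderiv_X_of_ne (fun h => hi h.symm), mul_zero]

theorem pderiv_family_of_ne (a : Fin m → ℂ) (i : Fin (m + 1)) (hi : i ≠ Fin.last m) :
    pderiv i (family d a) = MvPolynomial.map Polynomial.C (pderiv i (basePart d a)) := by
  rw [family, map_add, pderiv_C_mul, pderiv_last_pow_of_ne i hi, mul_zero, add_zero, pderiv_map]

theorem pderiv_last_family (a : Fin m → ℂ) :
    pderiv (Fin.last m) (family d a) =
      MvPolynomial.map Polynomial.C (pderiv (Fin.last m) (basePart d a)) +
      C Polynomial.X * MvPolynomial.map Polynomial.C ((d : MvPolynomial (Fin (m + 1)) ℂ) *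
        X (Fin.last m) ^ (d - 1)) := by
  rw [family, map_add, pderiv_C_mul, pderiv_pow, pderiv_X_self, pderiv_map]
  simp

theorem sdeg_pderiv_family (a : Fin m → ℂ) (i : Fin (m + 1)) :
    SDeg (if i = Fin.last m then 1 else 0) (pderiv i (family d a)) := by
  split_ifs with h
  · subst h
    rw [pderiv_last_family]
    exact ((SDeg.map_C _).mono (Nat.zero_le _)).add (SDeg.C_X.mul (SDeg.map_C _))
  · rw [pderiv_family_of_ne a i h]
    exact SDeg.map_C _

theorem sdeg_hessian_entry (a : Fin m → ℂ) (i j : Fin (m + 1)) :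
    SDeg (if j = Fin.last m ∧ i = Fin.last m then 1 else 0)
      (pderiv i (pderiv j (family d a))) := by
  by_cases hj : j = Fin.last m
  · subst hj
    rw [pderiv_last_family, map_add, pderiv_C_mul, pderiv_map, pderiv_map]
    by_cases hi : i = Fin.last m
    · rw [if_pos ⟨rfl, hi⟩]
      exact ((SDeg.map_C _).mono (Nat.zero_le _)).add (SDeg.C_X.mul (SDeg.map_C _))
    · rw [if_neg (fun h => hi h.2)]
      have h1 : pderiv i ((d : MvPolynomial (Fin (m + 1)) ℂ) * X (Fin.last m) ^ (d - 1)) = 0 := by
        rw [Derivation.leibniz, pderiv_pow, pderiv_X_of_ne (fun h => hi h.symm)]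
        simp
      rw [h1, map_zero, mul_zero, add_zero]
      exact SDeg.map_C _
  · rw [pderiv_family_of_ne a j hj, pderiv_map, if_neg (fun h => hj h.1)]
    exact SDeg.map_C _

theorem sdeg_hessianDet_family (a : Fin m → ℂ) : SDeg 1 (hessianDet (family d a)) := by
  classical
  rw [hessianDet, det_apply]
  apply SDeg.sum
  intro σ _
  have h1 : SDeg 1 (∏ i, (Matrix.of fun i j : Fin (m + 1) =>
      pderiv i (pderiv j (family d a))) (σ i) i) := by
    have h2 := SDeg.prod Finset.univ (fun i : Fin (m + 1) =>
      if i = Fin.last m ∧ σ i = Fin.last m then 1 else 0)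
      (fun i => (Matrix.of fun i j : Fin (m + 1) => pderiv i (pderiv j (family d a))) (σ i) i)
      (fun i _ => sdeg_hessian_entry a (σ i) i)
    apply h2.mono
    calc ∑ i : Fin (m + 1), (if i = Fin.last m ∧ σ i = Fin.last m then 1 else 0)
        ≤ ∑ i : Fin (m + 1), (if i = Fin.last m then 1 else 0) := by
          apply Finset.sum_le_sum
          intro i _
          split_ifs with h3 h4 h4
          · exact le_rfl
          · exact absurd h3.1 h4
          · exact Nat.zero_le _
          · exact le_rfl
      _ = 1 := by simp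
  rcases Int.units_eq_one_or (Equiv.Perm.sign σ) with h2 | h2
  · rw [h2, one_smul]
    exact h1
  · rw [h2, Units.neg_smul, one_smul]
    exact h1.neg

/-- The degree bound for a column of the Macaulay matrix. -/
noncomputable def colDeg (he : e + (d - 1) = ρ) (β : Expo (m + 1) ρ) : ℕ :=
  open Classical in
  if (∀ j : Fin m, β.1 j.castSucc < d - 1) then 1 else 0

theorem sdeg_col (a : Fin m → ℂ) (he : e + (d - 1) = ρ) (β : Expo (m + 1) ρ) :
    SDeg (colDeg he β) (col (family d a) (macChoice (m + 1) d e ρ he β)) := by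
  classical
  rcases h : macChoice (m + 1) d e ρ he β with _ | ⟨i, γ⟩
  · have h1 := macChoice_none h
    rw [colDeg, if_pos (fun j => h1 _)]
    exact sdeg_hessianDet_family a
  · obtain ⟨-, h1⟩ := macChoice_some h
    have h2 : SDeg (if i = Fin.last m then 1 else 0)
        (monomial γ.1 (1 : Polynomial ℂ) * pderiv i (family d a)) := by
      have h3 : SDeg 0 (monomial γ.1 (1 : Polynomial ℂ) :
          MvPolynomial (Fin (m + 1)) (Polynomial ℂ)) := by
        have := SDeg.map_C (monomial γ.1 (1 : ℂ))
        rwa [map_monomial, map_one] at this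
      have := h3.mul (sdeg_pderiv_family (d := d) a i)
      rwa [zero_add] at this
    apply h2.mono
    by_cases hi : i = Fin.last m
    · rw [if_pos hi, colDeg, if_pos]
      intro j
      apply h1
      rw [hi]
      exact Fin.castSucc_lt_last j
    · rw [if_neg hi]
      exact Nat.zero_le _

theorem sum_colDeg_le (he : e + (d - 1) = ρ) :
    ∑ β : Expo (m + 1) ρ, colDeg he β ≤ (d - 1) ^ m := by
  classical
  have h1 : ∑ β : Expo (m + 1) ρ, colDeg he β = (Finset.univ.filter
      (fun β : Expo (m + 1) ρ => ∀ j : Fin m, β.1 j.castSucc < d - 1)).card := by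
    rw [Finset.card_filter]
    rfl
  rw [h1]
  have h2 : (Finset.univ.filter
      (fun β : Expo (m + 1) ρ => ∀ j : Fin m, β.1 j.castSucc < d - 1)).card ≤
      (Fintype.piFinset (fun _ : Fin m => Finset.range (d - 1))).card := by
    apply Finset.card_le_card_of_injOn (fun β => fun j : Fin m => β.1 j.castSucc)
    · intro β hβ
      rw [Finset.mem_coe, Fintype.mem_piFinset]
      intro j
      rw [Finset.mem_range]
      exact (Finset.mem_filter.1 hβ).2 j
    · intro β _ β' _ hββ
      have hβ2 := β.2
      have hβ2' := β'.2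
      rw [Finsupp.degree_eq_sum, Fin.sum_univ_castSucc] at hβ2 hβ2'
      have h3 : ∀ j : Fin m, β.1 j.castSucc = β'.1 j.castSucc := fun j => congrFun hββ j
      have h4 : ∑ j : Fin m, β.1 j.castSucc = ∑ j : Fin m, β'.1 j.castSucc :=
        Finset.sum_congr rfl (fun j _ => h3 j)
      apply Subtype.ext
      ext i
      refine Fin.lastCases ?_ ?_ i
      · omega
      · intro j
        exact h3 j
  apply h2.trans
  rw [Fintype.card_piFinset]
  simp

/-- The Macaulay determinant of the family has degree at most `(d-1)^m` in the parameter. -/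
theorem natDegree_mac_family_le (a : Fin m → ℂ) (he : e + (d - 1) = ρ) :
    (colMatrix (macChoice (m + 1) d e ρ he) (family d a)).det.natDegree ≤ (d - 1) ^ m := by
  classical
  refine le_trans ?_ (sum_colDeg_le he)
  rw [det_apply]
  apply Polynomial.natDegree_sum_le_of_forall_le
  intro σ _
  have h1 : (∏ β, colMatrix (macChoice (m + 1) d e ρ he) (family d a) (σ β) β).natDegree ≤
      ∑ β : Expo (m + 1) ρ, colDeg he β := by
    refine (Polynomial.natDegree_prod_le _ _).trans ?_
    apply Finset.sum_le_sum
    intro β _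
    exact sdeg_col a he β _
  rcases Int.units_eq_one_or (Equiv.Perm.sign σ) with h2 | h2
  · rw [h2, one_smul]
    exact h1
  · rw [h2, Units.neg_smul, one_smul, Polynomial.natDegree_neg]
    exact h1

/-- Specialization of the family. -/
theorem map_eval_family (a : Fin m → ℂ) (s : ℂ) :
    MvPolynomial.map (Polynomial.evalRingHom s) (family d a) =
      basePart d a + C s * X (Fin.last m) ^ d := by
  rw [family, map_add, MvPolynomial.map_map, map_mul, map_C, map_pow, map_X]
  have h : (Polynomial.evalRingHom s).comp Polynomial.C = RingHom.id ℂ := by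
    ext x
    simp
  rw [h, MvPolynomial.map_id]
  simp

/-- Singular members of the family. -/
theorem isDegenerate_family (hd : 2 ≤ d) (a : Fin m → ℂ) (z : Fin m → ℂ)
    (hz : ∀ i, z i ^ (d - 1) = a i) (s : ℂ) (hs : s = ((d - 1 : ℕ) : ℂ) * ∑ i, a i * z i) :
    IsDegenerate (basePart d a + C s * X (Fin.last m) ^ d) := by
  classical
  refine ⟨Fin.snoc z 1, ?_, ?_⟩
  · intro h
    have := congrFun h (Fin.last m)
    simp at this
  · intro i
    refine Fin.lastCases ?_ ?_ i
    · rw [basePart, map_add, map_sub, map_sum, map_sum, pderiv_C_mul, pderiv_pow, pderiv_X_self]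
      have h1 : ∀ i : Fin m, pderiv (Fin.last m) ((X i.castSucc : MvPolynomial (Fin (m + 1)) ℂ) ^ d)
          = 0 := by
        intro i
        rw [pderiv_pow, pderiv_X_of_ne (Fin.castSucc_ne_last i), mul_zero]
      have h2 : ∀ i : Fin m, pderiv (Fin.last m) (C ((d : ℂ) * a i) *
          (X i.castSucc * (X (Fin.last m) : MvPolynomial (Fin (m + 1)) ℂ) ^ (d - 1))) =
          C ((d : ℂ) * a i) * (X i.castSucc * (((d - 1 : ℕ) : MvPolynomial (Fin (m + 1)) ℂ) *
            X (Fin.last m) ^ (d - 1 - 1))) := by
        intro i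
        rw [pderiv_C_mul, Derivation.leibniz, pderiv_X_of_ne (Fin.castSucc_ne_last i), pderiv_pow,
          pderiv_X_self]
        simp
      simp only [h1, h2]
      simp only [Finset.sum_const_zero, zero_sub, map_add, map_neg, map_sum, map_mul, eval_C,
        eval_X, Fin.snoc_castSucc, Fin.snoc_last, map_pow, one_pow, mul_one, map_natCast]
      rw [hs]
      have h3 : ∑ x : Fin m, (d : ℂ) * a x * (z x * ((d - 1 : ℕ) : ℂ)) =
          (d : ℂ) * (((d - 1 : ℕ) : ℂ) * ∑ i, a i * z i) := by
        rw [Finset.mul_sum, Finset.mul_sum]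
        apply Finset.sum_congr rfl
        intro x _
        ring
      rw [h3]
      ring
    · intro j
      rw [basePart, map_add, map_sub, map_sum, map_sum, pderiv_C_mul, pderiv_pow,
        pderiv_X_of_ne (Fin.castSucc_ne_last j).symm]
      have h1 : ∑ i : Fin m, pderiv j.castSucc
          ((X i.castSucc : MvPolynomial (Fin (m + 1)) ℂ) ^ d) =
          (d : MvPolynomial (Fin (m + 1)) ℂ) * X j.castSucc ^ (d - 1) := by
        rw [Finset.sum_eq_single j]
        · rw [pderiv_pow, pderiv_X_self, mul_one]
        · intro i _ hi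
          rw [pderiv_pow, pderiv_X_of_ne, mul_zero]
          intro h
          exact hi (Fin.castSucc_injective _ h)
        · simp
      have h2 : ∑ i : Fin m, pderiv j.castSucc (C ((d : ℂ) * a i) *
          (X i.castSucc * (X (Fin.last m) : MvPolynomial (Fin (m + 1)) ℂ) ^ (d - 1))) =
          C ((d : ℂ) * a j) * X (Fin.last m) ^ (d - 1) := by
        rw [Finset.sum_eq_single j]
        · rw [pderiv_C_mul, Derivation.leibniz, pderiv_pow, pderiv_X_self,
            pderiv_X_of_ne (Fin.castSucc_ne_last j).symm]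
          simp
        · intro i _ hi
          rw [pderiv_C_mul, Derivation.leibniz, pderiv_pow,
            pderiv_X_of_ne (Fin.castSucc_ne_last j).symm, pderiv_X_of_ne]
          · simp
          · intro h
            exact hi (Fin.castSucc_injective _ h)
        · simp
      rw [h1, h2]
      simp only [map_add, map_sub, map_mul, eval_C, eval_X, Fin.snoc_castSucc, Fin.snoc_last,
        map_pow, one_pow, mul_one, map_natCast, mul_zero, add_zero, map_zero]
      rw [hz j]
      ring

end Family

end Pool.Agent.Lib.Helper77.Disc
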