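import Pool.Agent.Lib.Helper77.Disc.PartE

/-!
# The square of the discriminant does not divide the Macaulay determinant
-/

set_option autoImplicit false

open MvPolynomial Matrix

namespace Pool.Agent.Lib.Helper77.Disc

theorem map_genForm {n d : ℕ} {R : Type*} [CommRing R] (φ : ℂ →+* R)
    (f : MvPolynomial (Fin n) R) (hf : f.IsHomogeneous d) :
    MvPolynomial.map (eval₂Hom φ (fun α : Expo n d => coeff α.1 f)) (genForm n d) = f := by
  conv_rhs => rw [eq_sum_expo f d hf]
  rw [genForm, map_sum]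
  simp only [map_monomial, coe_eval₂Hom, eval₂_X]

/-- There is a nonzero `y` such that the sums `∑ y ^ (d i) ζ ^ (j i)` are distinct. -/
theorem exists_distinct (m d : ℕ) (hd : 1 ≤ d) (k : ℕ) (ζ : ℂ) (hζ : IsPrimitiveRoot ζ k) :
    ∃ y : ℂ, y ≠ 0 ∧ Function.Injective
      (fun j : Fin m → Fin k => ∑ i : Fin m, y ^ (d * (i : ℕ)) * ζ ^ ((j i : ℕ))) := by
  classical
  let p : (Fin m → Fin k) → Polynomial ℂ := fun j =>
    ∑ i : Fin m, Polynomial.monomial (d * (i : ℕ)) (ζ ^ ((j i : ℕ)))
  have hp : Function.Injective p := by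
    intro j j' h
    funext i
    have h1 := congrArg (fun q => Polynomial.coeff q (d * (i : ℕ))) h
    have h2 : ∀ j : Fin m → Fin k, (p j).coeff (d * (i : ℕ)) = ζ ^ ((j i : ℕ)) := by
      intro j
      simp only [p]
      rw [Polynomial.finsetSum_coeff, Finset.sum_eq_single i]
      · rw [Polynomial.coeff_monomial, if_pos rfl]
      · intro l _ hl
        rw [Polynomial.coeff_monomial, if_neg]
        intro h
        apply hl
        apply Fin.ext
        exact Nat.eq_of_mul_eq_mul_left (by omega) h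
      · simp
    simp only [h2] at h1
    apply Fin.ext
    exact hζ.pow_inj (j i).2 (j' i).2 h1
  let Q : Polynomial ℂ := Polynomial.X *
    ∏ x ∈ (Finset.univ : Finset ((Fin m → Fin k) × (Fin m → Fin k))).filter
      (fun x => x.1 ≠ x.2), (p x.1 - p x.2)
  have hQ : Q ≠ 0 := by
    apply mul_ne_zero Polynomial.X_ne_zero
    rw [Finset.prod_ne_zero_iff]
    intro x hx
    rw [sub_ne_zero]
    intro h
    exact (Finset.mem_filter.1 hx).2 (hp h)
  obtain ⟨y, hy⟩ : ∃ y, Q.eval y ≠ 0 := by
    by_contra hno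
    push Not at hno
    exact hQ (Polynomial.funext (fun y => by rw [hno y, Polynomial.eval_zero]))
  rw [Polynomial.eval_mul, Polynomial.eval_X, Polynomial.eval_prod] at hy
  refine ⟨y, left_ne_zero_of_mul hy, ?_⟩
  intro j j' h
  by_contra hne
  have h1 := right_ne_zero_of_mul hy
  rw [Finset.prod_ne_zero_iff] at h1
  apply h1 (j, j') (Finset.mem_filter.2 ⟨Finset.mem_univ _, hne⟩)
  have h2 : ∀ j : Fin m → Fin k, (p j).eval y =
      ∑ i : Fin m, y ^ (d * (i : ℕ)) * ζ ^ ((j i : ℕ)) := by
    intro j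
    simp only [p]
    rw [Polynomial.eval_finsetSum]
    apply Finset.sum_congr rfl
    intro i _
    rw [Polynomial.eval_monomial, mul_comm]
  rw [Polynomial.eval_sub, h2, h2, sub_eq_zero]
  exact h

section

variable {m d e ρ : ℕ}

/-- The auxiliary family joining the Fermat form with the members of the family. -/
noncomputable def family2 (d : ℕ) (b : Fin m → ℂ) :
    MvPolynomial (Fin (m + 1)) (Polynomial ℂ) :=
  MvPolynomial.map Polynomial.C (fermat (m + 1) d) -
    C Polynomial.X * MvPolynomial.map Polynomial.C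
      (∑ i : Fin m, C ((d : ℂ) * b i) * (X i.castSucc * X (Fin.last m) ^ (d - 1)))

theorem map_eval_family2 (b : Fin m → ℂ) (u : ℂ) :
    MvPolynomial.map (Polynomial.evalRingHom u) (family2 d b) =
      basePart d (fun i => u * b i) + C 1 * X (Fin.last m) ^ d := by
  rw [family2, map_sub, MvPolynomial.map_map, map_mul, map_C, MvPolynomial.map_map]
  have h : (Polynomial.evalRingHom u).comp Polynomial.C = RingHom.id ℂ := by
    ext x
    simp
  simp only [h, MvPolynomial.map_id]
  rw [basePart, fermat, Fin.sum_univ_castSucc]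
  simp only [Polynomial.coe_evalRingHom, Polynomial.eval_X, C_1, one_mul]
  have h2 : C u * ∑ i : Fin m, C ((d : ℂ) * b i) * (X i.castSucc *
      (X (Fin.last m) : MvPolynomial (Fin (m + 1)) ℂ) ^ (d - 1)) =
      ∑ i : Fin m, C ((d : ℂ) * (u * b i)) * (X i.castSucc * X (Fin.last m) ^ (d - 1)) := by
    rw [Finset.mul_sum]
    apply Finset.sum_congr rfl
    intro i _
    rw [← mul_assoc, ← C_mul]
    congr 2
    ring
  rw [h2]
  ring

theorem exists_param (hd : 2 ≤ d) (hρ : ρ = (m + 1) * (d - 2)) (he : e + (d - 1) = ρ)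
    (b : Fin m → ℂ) : ∃ u : ℂ, u ≠ 0 ∧
      (colMatrix (macChoice (m + 1) d e ρ he)
        (basePart d (fun i => u * b i) + C 1 * X (Fin.last m) ^ d)).det ≠ 0 := by
  let P := (colMatrix (macChoice (m + 1) d e ρ he) (family2 d b)).det
  have hP : ∀ u, (colMatrix (macChoice (m + 1) d e ρ he)
      (basePart d (fun i => u * b i) + C 1 * X (Fin.last m) ^ d)).det = P.eval u := by
    intro u
    rw [← map_eval_family2, colMatrix_map]
    rfl
  have hP0 : P.eval 0 ≠ 0 := by
    rw [← hP]
    have h1 : basePart d (fun i => 0 * b i) + C 1 * X (Fin.last m) ^ d = fermat (m + 1) d := by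
      rw [basePart, fermat, Fin.sum_univ_castSucc]
      simp
    rw [h1]
    exact mac_fermat_ne_zero hd hρ he
  have hPX : Polynomial.X * P ≠ 0 := by
    apply mul_ne_zero Polynomial.X_ne_zero
    rintro h
    rw [h, Polynomial.eval_zero] at hP0
    exact hP0 rfl
  obtain ⟨u, hu⟩ : ∃ u, (Polynomial.X * P).eval u ≠ 0 := by
    by_contra hno
    push Not at hno
    exact hPX (Polynomial.funext (fun y => by rw [hno y, Polynomial.eval_zero]))
  rw [Polynomial.eval_mul, Polynomial.eval_X] at hu
  refine ⟨u, left_ne_zero_of_mul hu, ?_⟩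
  rw [hP]
  exact right_ne_zero_of_mul hu

/-- **Part F.** A polynomial vanishing at all degenerate forms occurs at most once in the
Macaulay determinant. -/
theorem not_sq_dvd (hd : 2 ≤ d) (hρ : ρ = (m + 1) * (d - 2)) (he : e + (d - 1) = ρ)
    (Δ : CoeffRing (m + 1) d)
    (hΔ : ∀ f : MvPolynomial (Fin (m + 1)) ℂ, f.IsHomogeneous d → IsDegenerate f →
      atForm Δ f = 0) :
    ¬ Δ ^ 2 ∣ (genDet (macChoice (m + 1) d e ρ he) : CoeffRing (m + 1) d) := by
  classical
  intro hdvd
  have hk0 : d - 1 ≠ 0 := by omega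
  have hζ := Complex.isPrimitiveRoot_exp (d - 1) hk0
  set ζ := Complex.exp (2 * Real.pi * Complex.I / ((d - 1 : ℕ) : ℂ)) with hζdef
  obtain ⟨y, hy0, hinj⟩ := exists_distinct m d (by omega) (d - 1) ζ hζ
  obtain ⟨u, hu0, hudet⟩ := exists_param hd hρ he (fun i : Fin m => (y ^ (i : ℕ)) ^ (d - 1))
  obtain ⟨υ, hυ⟩ := IsAlgClosed.exists_pow_nat_eq u (show 0 < d - 1 by omega)
  have hυ0 : υ ≠ 0 := by
    rintro rfl
    rw [zero_pow hk0] at hυ
    exact hu0 hυ.symm
  set a : Fin m → ℂ := fun i => u * (y ^ (i : ℕ)) ^ (d - 1) with ha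
  let Φ : CoeffRing (m + 1) d →+* Polynomial ℂ :=
    eval₂Hom Polynomial.C (fun α : Expo (m + 1) d => coeff α.1 (family d a))
  let P := (colMatrix (macChoice (m + 1) d e ρ he) (family d a)).det
  have hPΦ : Φ (genDet (macChoice (m + 1) d e ρ he)) = P := by
    change Φ (colMatrix (macChoice (m + 1) d e ρ he) (genForm (m + 1) d)).det = _
    rw [← colMatrix_map, map_genForm Polynomial.C (family d a) (family_isHomogeneous (by omega) a)]
  have hPeval : ∀ s, P.eval s = (colMatrix (macChoice (m + 1) d e ρ he)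
      (basePart d a + C s * X (Fin.last m) ^ d)).det := by
    intro s
    rw [← map_eval_family, colMatrix_map]
    rfl
  have hP0 : P ≠ 0 := by
    intro h
    apply hudet
    rw [← hPeval 1, h, Polynomial.eval_zero]
  have hQeval : ∀ s, (Φ Δ).eval s = atForm Δ (basePart d a + C s * X (Fin.last m) ^ d) := by
    intro s
    have h1 : (Polynomial.evalRingHom s).comp Φ =
        (eval (fun α : Expo (m + 1) d =>
          coeff α.1 (basePart d a + C s * X (Fin.last m) ^ d))) := by
      apply MvPolynomial.ringHom_ext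
      · intro r
        simp [Φ]
      · intro α
        rw [eval_X, ← map_eval_family, coeff_map]
        simp [Φ]
    have h2 := congrArg (fun g => g Δ) h1
    exact h2
  -- the roots
  let r : (Fin m → Fin (d - 1)) → ℂ := fun j =>
    ((d - 1 : ℕ) : ℂ) * u * υ * ∑ i : Fin m, y ^ (d * (i : ℕ)) * ζ ^ ((j i : ℕ))
  have hr : Function.Injective r := by
    intro j j' h
    apply hinj
    have h1 : ((d - 1 : ℕ) : ℂ) * u * υ ≠ 0 :=
      mul_ne_zero (mul_ne_zero (Nat.cast_ne_zero.2 hk0) hu0) hυ0
    exact mul_left_cancel₀ h1 h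
  have hroot : ∀ j, (Φ Δ).eval (r j) = 0 := by
    intro j
    rw [hQeval]
    apply hΔ
    · have := (family_isHomogeneous (show 1 ≤ d by omega) a).map (Polynomial.evalRingHom (r j))
      rwa [map_eval_family] at this
    · apply isDegenerate_family hd a (fun i => υ * y ^ (i : ℕ) * ζ ^ ((j i : ℕ)))
      · intro i
        rw [mul_pow, mul_pow, hυ, ← pow_mul, ← pow_mul, mul_comm ((j i : ℕ)) (d - 1),
          pow_mul ζ, hζ.pow_eq_one, one_pow, mul_one, ha]
        simp only
        rw [← pow_mul]
      · simp only [r, ha]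
        rw [mul_assoc, mul_assoc, Finset.mul_sum, Finset.mul_sum, Finset.mul_sum]
        rw [Finset.mul_sum]
        apply Finset.sum_congr rfl
        intro i _
        have hd' : d * (i : ℕ) = (i : ℕ) * (d - 1) + (i : ℕ) := by
          obtain ⟨k, rfl⟩ : ∃ k, d = k + 1 := ⟨d - 1, by omega⟩
          simp
          ring
        rw [hd', pow_add, ← pow_mul]
        ring
  obtain ⟨E, hE⟩ := hdvd
  have hP : P = (Φ Δ) ^ 2 * Φ E := by
    rw [← hPΦ, hE, map_mul, map_pow]
  have hQ0 : Φ Δ ≠ 0 := by
    intro h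
    apply hP0
    rw [hP, h]
    simp
  have hE0 : Φ E ≠ 0 := by
    intro h
    apply hP0
    rw [hP, h]
    simp
  have hcard : (d - 1) ^ m ≤ (Φ Δ).natDegree := by
    calc (d - 1) ^ m = (Finset.univ.image r).card := by
          rw [Finset.card_image_of_injective _ hr]
          simp
      _ ≤ (Φ Δ).roots.toFinset.card := by
          apply Finset.card_le_card
          intro x hx
          obtain ⟨j, -, rfl⟩ := Finset.mem_image.1 hx
          rw [Multiset.mem_toFinset, Polynomial.mem_roots hQ0]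
          exact hroot j
      _ ≤ Multiset.card (Φ Δ).roots := Multiset.toFinset_card_le _
      _ ≤ (Φ Δ).natDegree := Polynomial.card_roots' _
  have hdeg : P.natDegree = 2 * (Φ Δ).natDegree + (Φ E).natDegree := by
    rw [hP, Polynomial.natDegree_mul (pow_ne_zero 2 hQ0) hE0, Polynomial.natDegree_pow]
  have hle := natDegree_mac_family_le (d := d) a he
  have hpos : 0 < (d - 1) ^ m := Nat.pow_pos (by omega)
  change P.natDegree ≤ _ at hle
  omega

end

end Pool.Agent.Lib.Helper77.Disc
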