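import Pool.Agent.Lib.Helper77.Disc.PartI

/-!
# Existence of the discriminant
-/

set_option autoImplicit false

open MvPolynomial Matrix

namespace Pool.Agent.Lib.Helper77.Disc

section Chain

variable {n : ℕ}

/-- The chain rule for substitutions. -/
theorem pderiv_bind₁ {R : Type*} [CommRing R] (L : Fin n → MvPolynomial (Fin n) R)
    (p : MvPolynomial (Fin n) R) (j : Fin n) :
    pderiv j (bind₁ L p) = ∑ i, bind₁ L (pderiv i p) * pderiv j (L i) := by
  classical
  induction p using MvPolynomial.induction_on with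
  | C a => simp
  | add p q hp hq =>
    rw [map_add, map_add, hp, hq, ← Finset.sum_add_distrib]
    apply Finset.sum_congr rfl
    intro i _
    rw [map_add, map_add]
    ring
  | mul_X p k hp =>
    rw [map_mul, bind₁_X_right, Derivation.leibniz, hp]
    have h1 : ∀ i, bind₁ L (pderiv i (p * X k)) * pderiv j (L i) =
        (if i = k then bind₁ L p * pderiv j (L i) else 0) +
          L k * (bind₁ L (pderiv i p) * pderiv j (L i)) := by
      intro i
      rw [Derivation.leibniz, map_add, smul_eq_mul, smul_eq_mul, map_mul, map_mul, bind₁_X_right]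
      by_cases h : i = k
      · subst h
        rw [pderiv_X_self, map_one, if_pos rfl]
        ring
      · rw [pderiv_X_of_ne (fun h' => h h'.symm), map_zero, if_neg h]
        ring
    rw [Finset.sum_congr rfl (fun i _ => h1 i), Finset.sum_add_distrib, Finset.sum_ite_eq',
      if_pos (Finset.mem_univ k), ← Finset.mul_sum, smul_eq_mul, smul_eq_mul]

theorem eval_smul_of_isHomogeneous (q : MvPolynomial (Fin n) ℂ) (k : ℕ) (hq : q.IsHomogeneous k)
    (c : ℂ) (x : Fin n → ℂ) : eval (fun i => c * x i) q = c ^ k * eval x q := by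
  rw [eq_sum_expo q k hq, map_sum, map_sum, Finset.mul_sum]
  apply Finset.sum_congr rfl
  intro β _
  rw [eval_monomial, eval_monomial, Finsupp.prod_fintype _ _ (fun i => pow_zero _),
    Finsupp.prod_fintype _ _ (fun i => pow_zero _)]
  simp only [mul_pow]
  rw [Finset.prod_mul_distrib, Finset.prod_pow_eq_pow_sum]
  have : ∑ i, β.1 i = k := by
    have := β.2
    rwa [Finsupp.degree_eq_sum] at this
  rw [this]
  ring

/-- The substitution `X_i ↦ X_i - t P_i ℓ` as polynomials over `R`. -/
noncomputable def shear {R : Type*} [CommRing R] (t : R) (P ℓ : Fin n → R) (i : Fin n) :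
    MvPolynomial (Fin n) R :=
  X i - C (t * P i) * ∑ j, C (ℓ j) * X j

theorem shear_isHomogeneous {R : Type*} [CommRing R] (t : R) (P ℓ : Fin n → R) (i : Fin n) :
    (shear t P ℓ i).IsHomogeneous 1 := by
  apply IsHomogeneous.sub
  · exact isHomogeneous_X _ _
  · apply IsHomogeneous.C_mul
    apply IsHomogeneous.sum
    intro j _
    exact (isHomogeneous_X _ _).C_mul _

theorem bind₁_isHomogeneous {R : Type*} [CommRing R] (L : Fin n → MvPolynomial (Fin n) R)
    (hL : ∀ i, (L i).IsHomogeneous 1) (p : MvPolynomial (Fin n) R) (k : ℕ)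
    (hp : p.IsHomogeneous k) : (bind₁ L p).IsHomogeneous k := by
  have := hp.aeval L hL
  rwa [one_mul] at this

theorem eval_shear (t : ℂ) (P ℓ x : Fin n → ℂ) (i : Fin n) :
    eval x (shear t P ℓ i) = x i - t * P i * ∑ j, ℓ j * x j := by
  simp [shear, map_sum]

/-- If `f` is singular at `Q`, then the composite with a substitution sending `x` to a multiple
of `Q` is singular at `x`. -/
theorem pderiv_bind₁_eval_eq_zero (f : MvPolynomial (Fin n) ℂ) (d : ℕ) (hf : f.IsHomogeneous d)
    (Q : Fin n → ℂ) (hQ : ∀ i, eval Q (pderiv i f) = 0) (L : Fin n → MvPolynomial (Fin n) ℂ)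
    (x : Fin n → ℂ) (c : ℂ) (hx : ∀ i, eval x (L i) = c * Q i) (j : Fin n) :
    eval x (pderiv j (bind₁ L f)) = 0 := by
  rw [pderiv_bind₁, map_sum]
  apply Finset.sum_eq_zero
  intro i _
  rw [map_mul]
  have h1 : eval x (bind₁ L (pderiv i f)) = 0 := by
    have h2 : eval x (bind₁ L (pderiv i f)) = eval (fun i => c * Q i) (pderiv i f) := by
      have h3 : (fun i => c * Q i) = fun i => eval x (L i) := funext (fun i => (hx i).symm)
      rw [h3]
      rw [bind₁, aeval_def, eval_eval₂]
      have h4 : (eval x).comp (algebraMap ℂ (MvPolynomial (Fin n) ℂ)) = RingHom.id ℂ := by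
        ext r
        simp
      rw [h4]
      rfl
    rw [h2, eval_smul_of_isHomogeneous _ (d - 1) hf.pderiv, hQ i, mul_zero]
  rw [h1, zero_mul]

/-- Two degenerate forms are joined by a polynomial curve of degenerate forms. -/
theorem exists_curve {d : ℕ} (f₁ f₂ : MvPolynomial (Fin n) ℂ) (hf₁ : f₁.IsHomogeneous d)
    (hf₂ : f₂.IsHomogeneous d) (h₁ : IsDegenerate f₁) (h₂ : IsDegenerate f₂) :
    ∃ F : MvPolynomial (Fin n) (Polynomial ℂ), F.IsHomogeneous d ∧
      MvPolynomial.map (Polynomial.evalRingHom 0) F = f₁ ∧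
      MvPolynomial.map (Polynomial.evalRingHom 1) F = f₂ ∧
      ∀ t, IsDegenerate (MvPolynomial.map (Polynomial.evalRingHom t) F) := by
  obtain ⟨P₁', hP₁', hz₁'⟩ := h₁
  obtain ⟨P₂', hP₂', hz₂'⟩ := h₂
  -- a linear form not vanishing at the two points
  have hlin : ∀ P : Fin n → ℂ, P ≠ 0 → (∑ i, C (P i) * X i : MvPolynomial (Fin n) ℂ) ≠ 0 := by
    intro P hP h0
    apply hP
    funext i
    have h1 := congrArg (fun q => eval (Pi.single i (1 : ℂ)) q) h0
    simp only [map_sum, map_mul, eval_C, eval_X, map_zero] at h1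
    rw [Finset.sum_eq_single i] at h1
    · simpa using h1
    · intro j _ hj
      rw [Pi.single_eq_of_ne hj, mul_zero]
    · simp
  obtain ⟨ℓ, hℓ⟩ : ∃ ℓ : Fin n → ℂ, eval ℓ ((∑ i, C (P₁' i) * X i) * (∑ i, C (P₂' i) * X i)) ≠ 0 := by
    by_contra hno
    push Not at hno
    apply mul_ne_zero (hlin P₁' hP₁') (hlin P₂' hP₂')
    apply MvPolynomial.funext
    intro x
    rw [hno x, map_zero]
  rw [map_mul] at hℓ
  simp only [map_sum, map_mul, eval_C, eval_X] at hℓ
  have hℓ₁ := left_ne_zero_of_mul hℓ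
  have hℓ₂ := right_ne_zero_of_mul hℓ
  -- rescale the points
  set c₁ := (∑ i, P₁' i * ℓ i)⁻¹ with hc₁
  set c₂ := (∑ i, P₂' i * ℓ i)⁻¹ with hc₂
  set P₁ : Fin n → ℂ := fun i => c₁ * P₁' i with hP₁
  set P₂ : Fin n → ℂ := fun i => c₂ * P₂' i with hP₂
  have hs₁ : ∑ j, ℓ j * P₁ j = 1 := by
    have : ∑ j, ℓ j * P₁ j = c₁ * ∑ i, P₁' i * ℓ i := by
      rw [Finset.mul_sum]
      apply Finset.sum_congr rfl
      intro i _
      simp only [hP₁]
      ring
    rw [this, hc₁, inv_mul_cancel₀ hℓ₁]
  have hs₂ : ∑ j, ℓ j * P₂ j = 1 := by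
    have : ∑ j, ℓ j * P₂ j = c₂ * ∑ i, P₂' i * ℓ i := by
      rw [Finset.mul_sum]
      apply Finset.sum_congr rfl
      intro i _
      simp only [hP₂]
      ring
    rw [this, hc₂, inv_mul_cancel₀ hℓ₂]
  have hz₁ : ∀ i, eval P₁ (pderiv i f₁) = 0 := by
    intro i
    rw [hP₁, eval_smul_of_isHomogeneous _ (d - 1) hf₁.pderiv, hz₁' i, mul_zero]
  have hz₂ : ∀ i, eval P₂ (pderiv i f₂) = 0 := by
    intro i
    rw [hP₂, eval_smul_of_isHomogeneous _ (d - 1) hf₂.pderiv, hz₂' i, mul_zero]
  let T : Polynomial ℂ := Polynomial.X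
  let L₁ : Fin n → MvPolynomial (Fin n) (Polynomial ℂ) :=
    shear T (fun i => Polynomial.C (P₂ i)) (fun i => Polynomial.C (ℓ i))
  let L₂ : Fin n → MvPolynomial (Fin n) (Polynomial ℂ) :=
    shear (1 - T) (fun i => Polynomial.C (P₁ i)) (fun i => Polynomial.C (ℓ i))
  let F : MvPolynomial (Fin n) (Polynomial ℂ) :=
    C (1 - T) * bind₁ L₁ (MvPolynomial.map Polynomial.C f₁) +
      C T * bind₁ L₂ (MvPolynomial.map Polynomial.C f₂)
  have hid : ∀ t : ℂ, (Polynomial.evalRingHom t).comp Polynomial.C = RingHom.id ℂ := by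
    intro t
    ext x
    simp
  have hF : ∀ t : ℂ, MvPolynomial.map (Polynomial.evalRingHom t) F =
      C (1 - t) * bind₁ (shear t P₂ ℓ) f₁ + C t * bind₁ (shear (1 - t) P₁ ℓ) f₂ := by
    intro t
    simp only [F, map_add, map_mul, map_C, map_bind₁, MvPolynomial.map_map, hid,
      MvPolynomial.map_id]
    have h1 : ∀ i, MvPolynomial.map (Polynomial.evalRingHom t) (L₁ i) = shear t P₂ ℓ i := by
      intro i
      simp only [L₁, shear, T, map_sub, map_mul, map_X, map_C, map_sum,
        Polynomial.coe_evalRingHom, Polynomial.eval_X, Polynomial.eval_C]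
    have h2 : ∀ i, MvPolynomial.map (Polynomial.evalRingHom t) (L₂ i) =
        shear (1 - t) P₁ ℓ i := by
      intro i
      simp only [L₂, shear, T, map_sub, map_mul, map_X, map_C, map_sum, map_one,
        Polynomial.coe_evalRingHom, Polynomial.eval_X, Polynomial.eval_C]
    simp only [h1, h2]
    simp [T]
  refine ⟨F, ?_, ?_, ?_, ?_⟩
  · apply IsHomogeneous.add
    · exact (bind₁_isHomogeneous _ (fun i => shear_isHomogeneous _ _ _ i) _ _ (hf₁.map _)).C_mul _
    · exact (bind₁_isHomogeneous _ (fun i => shear_isHomogeneous _ _ _ i) _ _ (hf₂.map _)).C_mul _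
  · rw [hF]
    have : shear (0 : ℂ) P₂ ℓ = X := by
      funext i
      simp [shear]
    rw [this]
    simp
  · rw [hF]
    have : shear ((1 : ℂ) - 1) P₁ ℓ = X := by
      funext i
      simp [shear]
    rw [this]
    simp
  · intro t
    rw [hF]
    refine ⟨fun i => (1 - t) * P₁ i + t * P₂ i, ?_, ?_⟩
    · intro h0
      have h1 : ∑ j, ℓ j * ((1 - t) * P₁ j + t * P₂ j) = 1 := by
        have : ∑ j, ℓ j * ((1 - t) * P₁ j + t * P₂ j) =
            (1 - t) * ∑ j, ℓ j * P₁ j + t * ∑ j, ℓ j * P₂ j := by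
          rw [Finset.mul_sum, Finset.mul_sum, ← Finset.sum_add_distrib]
          apply Finset.sum_congr rfl
          intro j _
          ring
        rw [this, hs₁, hs₂]
        ring
      have h2 : ∑ j, ℓ j * ((1 - t) * P₁ j + t * P₂ j) = 0 := by
        apply Finset.sum_eq_zero
        intro j _
        have := congrFun h0 j
        simp only [Pi.zero_apply] at this
        rw [this, mul_zero]
      rw [h1] at h2
      exact one_ne_zero h2
    · intro j
      have hsum : ∑ j, ℓ j * ((1 - t) * P₁ j + t * P₂ j) = 1 := by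
        have : ∑ j, ℓ j * ((1 - t) * P₁ j + t * P₂ j) =
            (1 - t) * ∑ j, ℓ j * P₁ j + t * ∑ j, ℓ j * P₂ j := by
          rw [Finset.mul_sum, Finset.mul_sum, ← Finset.sum_add_distrib]
          apply Finset.sum_congr rfl
          intro j _
          ring
        rw [this, hs₁, hs₂]
        ring
      rw [map_add, pderiv_C_mul, pderiv_C_mul, map_add, map_mul, map_mul]
      rw [pderiv_bind₁_eval_eq_zero f₁ d hf₁ P₁ hz₁ (shear t P₂ ℓ) _ (1 - t),
        pderiv_bind₁_eval_eq_zero f₂ d hf₂ P₂ hz₂ (shear (1 - t) P₁ ℓ) _ t]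
      · ring
      · intro i
        rw [eval_shear, hsum]
        ring
      · intro i
        rw [eval_shear, hsum]
        ring

end Chain

section Ideal

variable {n d : ℕ}

/-- The ideal of polynomials vanishing at all degenerate forms. -/
noncomputable def singIdeal (n d : ℕ) : Ideal (CoeffRing n d) where
  carrier := {Q | ∀ f : MvPolynomial (Fin n) ℂ, f.IsHomogeneous d → IsDegenerate f →
    atForm Q f = 0}
  zero_mem' := by
    intro f _ _
    simp [atForm]
  add_mem' := by
    intro a b ha hb f hf hd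
    have h1 := ha f hf hd
    have h2 := hb f hf hd
    simp only [atForm, map_add] at *
    rw [h1, h2, add_zero]
  smul_mem' := by
    intro c x hx f hf hd
    rw [smul_eq_mul, atForm_mul, hx f hf hd, mul_zero]

theorem mem_singIdeal (Q : CoeffRing n d) : Q ∈ singIdeal n d ↔
    ∀ f : MvPolynomial (Fin n) ℂ, f.IsHomogeneous d → IsDegenerate f → atForm Q f = 0 := Iff.rfl

theorem eval_along (F : MvPolynomial (Fin n) (Polynomial ℂ)) (Q : CoeffRing n d) (s : ℂ) :
    (eval₂Hom Polynomial.C (fun α : Expo n d => coeff α.1 F) Q).eval s =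
      atForm Q (MvPolynomial.map (Polynomial.evalRingHom s) F) := by
  have h1 : (Polynomial.evalRingHom s).comp
      (eval₂Hom Polynomial.C (fun α : Expo n d => coeff α.1 F)) =
      (eval (fun α : Expo n d => coeff α.1 (MvPolynomial.map (Polynomial.evalRingHom s) F))) := by
    apply MvPolynomial.ringHom_ext
    · intro r
      simp
    · intro α
      rw [eval_X, coeff_map]
      simp
  exact congrArg (fun g => g Q) h1

theorem exists_degenerate (hn : 1 ≤ n) :
    IsDegenerate (0 : MvPolynomial (Fin n) ℂ) := by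
  refine ⟨fun _ => 1, ?_, ?_⟩
  · intro h
    have := congrFun h ⟨0, by omega⟩
    simp at this
  · intro i
    simp

theorem singIdeal_isPrime (hn : 1 ≤ n) : (singIdeal n d).IsPrime := by
  constructor
  · intro h
    have h1 : (1 : CoeffRing n d) ∈ singIdeal n d := by
      rw [h]
      exact Submodule.mem_top
    have := h1 0 (isHomogeneous_zero _ _ _) (exists_degenerate hn)
    simp [atForm] at this
  · intro Q₁ Q₂ h
    by_contra hno
    push Not at hno
    obtain ⟨h1, h2⟩ := hno
    rw [mem_singIdeal] at h1 h2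
    push Not at h1 h2
    obtain ⟨f₁, hf₁, hdeg₁, hne₁⟩ := h1
    obtain ⟨f₂, hf₂, hdeg₂, hne₂⟩ := h2
    obtain ⟨F, hF, hF0, hF1, hFt⟩ := exists_curve f₁ f₂ hf₁ hf₂ hdeg₁ hdeg₂
    set q₁ := eval₂Hom Polynomial.C (fun α : Expo n d => coeff α.1 F) Q₁ with hq₁
    set q₂ := eval₂Hom Polynomial.C (fun α : Expo n d => coeff α.1 F) Q₂ with hq₂
    have hq₁0 : q₁ ≠ 0 := by
      intro h0
      apply hne₁
      rw [← hF0, ← eval_along, ← hq₁, h0, Polynomial.eval_zero]
    have hq₂0 : q₂ ≠ 0 := by
      intro h0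
      apply hne₂
      rw [← hF1, ← eval_along, ← hq₂, h0, Polynomial.eval_zero]
    apply mul_ne_zero hq₁0 hq₂0
    apply Polynomial.funext
    intro t
    rw [hq₁, hq₂, ← map_mul, eval_along, Polynomial.eval_zero]
    exact h _ (hF.map _) (hFt t)

/-- By the Nullstellensatz: if an irreducible polynomial `π` vanishes only at zeros of `Q`,
then `π` divides `Q`. -/
theorem dvd_of_vanishing (π Q : CoeffRing n d) (hπ : Irreducible π)
    (h : ∀ f : MvPolynomial (Fin n) ℂ, f.IsHomogeneous d → atForm π f = 0 → atForm Q f = 0) :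
    π ∣ Q := by
  have hprime : Prime π := UniqueFactorizationMonoid.irreducible_iff_prime.1 hπ
  have hP : (Ideal.span {π} : Ideal (CoeffRing n d)).IsPrime :=
    (Ideal.span_singleton_prime hπ.ne_zero).2 hprime
  have h1 : Q ∈ (Ideal.span {π} : Ideal (CoeffRing n d)).radical := by
    rw [← vanishingIdeal_zeroLocus_eq_radical (K := ℂ), mem_vanishingIdeal_iff]
    intro x hx
    rw [mem_zeroLocus_iff] at hx
    have h2 := hx π (Ideal.mem_span_singleton_self π)
    rw [aeval_eq_eval] at h2 ⊢
    have h3 : atForm π (ofCoeffs x) = 0 := by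
      rw [atForm_ofCoeffs]
      exact h2
    have h4 := h _ (ofCoeffs_isHomogeneous x) h3
    rw [atForm_ofCoeffs] at h4
    exact h4
  rw [hP.radical, Ideal.mem_span_singleton] at h1
  exact h1

end Ideal

section Existence

variable {n d : ℕ}

theorem arith (hn : 2 ≤ n) (hd : 3 ≤ d) :
    n * (d - 2) - (d - 1) + (d - 1) = n * (d - 2) := by
  apply Nat.sub_add_cancel
  obtain ⟨k, rfl⟩ : ∃ k, d = k + 3 := ⟨d - 3, by omega⟩
  have : 2 * (k + 3 - 2) ≤ n * (k + 3 - 2) := Nat.mul_le_mul_right _ hn
  omega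

/-- The reduced denominator is not a unit. -/
theorem not_isUnit_reduced (hn : 1 ≤ n) (hd : 2 ≤ d) (β : Expo n (n * (d - 2)))
    (Q : CoeffRing n d)
    (h : ∀ f : MvPolynomial (Fin n) ℂ, f.IsHomogeneous d → ¬ IsDegenerate f →
      monomial β.1 1 - C (atForm Q f) * hessianDet f ∈ jacobianIdeal f) : False := by
  set f := twisted n d with hf
  have hfh : f.IsHomogeneous d := twisted_isHomogeneous
  have hfn : ¬ IsDegenerate f := twisted_not_degenerate hd
  -- the scaled forms
  have hsc : ∀ t : ℂ, t ≠ 0 → atForm Q (C t * f) * t ^ n = atForm Q f := by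
    intro t ht
    have h1 : (C t * f).IsHomogeneous d := hfh.C_mul _
    have h2 : ¬ IsDegenerate (C t * f) := by
      rintro ⟨z, hz, hzf⟩
      apply hfn
      refine ⟨z, hz, fun i => ?_⟩
      have := hzf i
      rw [pderiv_C_mul, map_mul, eval_C] at this
      exact (mul_eq_zero.1 this).resolve_left ht
    have h3 := h _ h1 h2
    have h4 : hessianDet (C t * f) = C (t ^ n) * hessianDet f := by
      have h5 : (Matrix.of fun i j : Fin n => pderiv i (pderiv j (C t * f))) =
          (C t : MvPolynomial (Fin n) ℂ) •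
            (Matrix.of fun i j : Fin n => pderiv i (pderiv j f)) := by
        funext i j
        simp only [of_apply, Matrix.smul_apply, pderiv_C_mul, smul_eq_mul]
      rw [hessianDet, h5, det_smul, Fintype.card_fin, C_pow]
      rfl
    have h5 : jacobianIdeal (C t * f) ≤ jacobianIdeal f := by
      rw [jacobianIdeal, Ideal.span_le]
      rintro _ ⟨i, rfl⟩
      change pderiv i (C t * f) ∈ jacobianIdeal f
      rw [pderiv_C_mul]
      exact Ideal.mul_mem_left _ _ (Ideal.subset_span ⟨i, rfl⟩)
    have h6 := h5 h3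
    rw [h4] at h6
    have h7 := h f hfh hfn
    have h8 := Ideal.sub_mem _ h7 h6
    have h9 : (C (atForm Q (C t * f) * t ^ n - atForm Q f) * hessianDet f :
        MvPolynomial (Fin n) ℂ) ∈ jacobianIdeal f := by
      have h10 : (C (atForm Q (C t * f) * t ^ n - atForm Q f) * hessianDet f :
          MvPolynomial (Fin n) ℂ) = (monomial β.1 1 - C (atForm Q f) * hessianDet f) -
          (monomial β.1 1 - C (atForm Q (C t * f)) * (C (t ^ n) * hessianDet f)) := by
        rw [C_sub, C_mul]
        ring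
      rw [h10]
      exact h8
    by_contra hne
    have hne' : atForm Q (C t * f) * t ^ n - atForm Q f ≠ 0 := sub_ne_zero.2 hne
    apply hessianDet_notMem f d hd hfh hfn
    have := Ideal.mul_mem_left (jacobianIdeal f)
      (C (atForm Q (C t * f) * t ^ n - atForm Q f)⁻¹) h9
    rwa [← mul_assoc, ← C_mul, inv_mul_cancel₀ hne', C_1, one_mul] at this
  -- the polynomial in `t`
  let F : MvPolynomial (Fin n) (Polynomial ℂ) := C Polynomial.X * MvPolynomial.map Polynomial.C f
  let q : Polynomial ℂ := eval₂Hom Polynomial.C (fun α : Expo n d => coeff α.1 F) Q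
  have hq : ∀ t, q.eval t = atForm Q (C t * f) := by
    intro t
    rw [eval_along]
    congr 1
    simp only [F, map_mul, map_C, MvPolynomial.map_map]
    have hid : (Polynomial.evalRingHom t).comp Polynomial.C = RingHom.id ℂ := by
      ext x
      simp
    rw [hid, MvPolynomial.map_id]
    simp
  have hpoly : Polynomial.X * (q * Polynomial.X ^ n - Polynomial.C (atForm Q f)) = 0 := by
    apply Polynomial.funext
    intro t
    rw [Polynomial.eval_zero, Polynomial.eval_mul, Polynomial.eval_X]
    by_cases ht : t = 0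
    · rw [ht, zero_mul]
    · rw [Polynomial.eval_sub, Polynomial.eval_mul, Polynomial.eval_pow, Polynomial.eval_X,
        Polynomial.eval_C, hq, hsc t ht, sub_self, mul_zero]
  have h1 := (mul_eq_zero.1 hpoly).resolve_left Polynomial.X_ne_zero
  have h2 := congrArg (Polynomial.eval 0) h1
  rw [Polynomial.eval_sub, Polynomial.eval_mul, Polynomial.eval_pow, Polynomial.eval_X,
    Polynomial.eval_C, Polynomial.eval_zero, zero_pow (by omega), mul_zero, zero_sub,
    neg_eq_zero] at h2
  have h3 := h f hfh hfn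
  rw [h2, C_0, zero_mul, sub_zero] at h3
  exact monomial_notMem hd β h3

theorem genDet_mac_ne_zero {e ρ : ℕ} (hd : 2 ≤ d) (hρ : ρ = n * (d - 2)) (he : e + (d - 1) = ρ) :
    (genDet (macChoice n d e ρ he) : CoeffRing n d) ≠ 0 := by
  intro h
  apply mac_fermat_ne_zero hd hρ he
  have hfh : (fermat n d).IsHomogeneous d := by
    apply IsHomogeneous.sum
    intro i _
    exact isHomogeneous_X_pow _ _
  rw [← atForm_genDet _ _ hfh, h]
  simp [atForm]

/-- **Part G.** The discriminant exists. -/
theorem exists_discriminant (hn : 2 ≤ n) (hd : 3 ≤ d) :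
    ∃ Δ : CoeffRing n d, IsDiscriminant Δ := by
  have hd2 : 2 ≤ d := by omega
  set ρ := n * (d - 2) with hρ
  set e := ρ - (d - 1) with he'
  have he : e + (d - 1) = ρ := arith hn hd
  have hκ₀ := genDet_mac_ne_zero (n := n) (d := d) hd2 hρ he
  -- some exponent
  let β : Expo n ρ := ⟨Finsupp.single ⟨0, by omega⟩ ρ, by simp⟩
  obtain ⟨D', N', hD'0, hD'dvd, -, hD'⟩ := exists_reduced hd2 hρ he _ hκ₀ β
  have hunit : ¬ IsUnit D' := by
    intro hu
    obtain ⟨u, hu⟩ := hu
    apply not_isUnit_reduced (by omega) hd2 β ((↑u⁻¹ : CoeffRing n d) * N')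
    intro f hf hnd
    have h1 := hD' f hf hnd
    have h2 : atForm (↑u⁻¹ : CoeffRing n d) f * atForm D' f = 1 := by
      rw [← atForm_mul, ← hu]
      simp [atForm]
    have h3 : (monomial β.1 1 - C (atForm ((↑u⁻¹ : CoeffRing n d) * N') f) * hessianDet f :
        MvPolynomial (Fin n) ℂ) = C (atForm (↑u⁻¹ : CoeffRing n d) f) *
          (monomial β.1 (atForm D' f) - C (atForm N' f) * hessianDet f) := by
      rw [mul_sub, C_mul_monomial, h2, atForm_mul, C_mul]
      ring
    rw [h3]
    exact Ideal.mul_mem_left _ _ h1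
  obtain ⟨π, hπ, hπD⟩ := WfDvdMonoid.exists_irreducible_factor hunit hD'0
  have hZ : ∀ f : MvPolynomial (Fin n) ℂ, f.IsHomogeneous d → atForm π f = 0 →
      IsDegenerate f := by
    intro f hf h0
    by_contra hnd
    obtain ⟨κ, hκ⟩ := exists_det_ne_zero (e := e) hd2 hρ he f hf hnd
    apply hκ
    rw [← atForm_genDet κ f hf]
    obtain ⟨W, hW⟩ := hπD.trans (hD'dvd κ)
    rw [hW, atForm_mul, h0, zero_mul]
  have hprime := singIdeal_isPrime (n := n) (d := d) (by omega)
  have hne : singIdeal n d ≠ ⊥ := by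
    intro h
    apply hκ₀
    rw [← Ideal.mem_bot, ← h]
    intro f hf hdeg
    rw [atForm_genDet _ f hf]
    exact det_eq_zero_of_degenerate f hf hρ he hdeg _
  obtain ⟨x, hx, hxp⟩ := hprime.exists_mem_prime_of_ne_bot hne
  have hdvd : π ∣ x := by
    apply dvd_of_vanishing π x hπ
    intro f hf h0
    exact hx f hf (hZ f hf h0)
  have hassoc : Associated π x :=
    (hπ.dvd_irreducible_iff_associated hxp.irreducible).1 hdvd
  have hmem : π ∈ singIdeal n d := by
    obtain ⟨u, hu⟩ := hassoc.symm
    rw [← hu]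
    exact Ideal.mul_mem_right _ _ hx
  exact ⟨π, hπ, fun f hf => ⟨hZ f hf, fun hdeg => hmem f hf hdeg⟩⟩

end Existence

end Pool.Agent.Lib.Helper77.Disc
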