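import Pool.Agent.Lib.Helper77.Disc.PartF

/-!
# No coefficient vanishes identically
-/

set_option autoImplicit false

open MvPolynomial Matrix

namespace Pool.Agent.Lib.Helper77.Disc

section Positivity

variable {n : ℕ}

/-- All coefficients of `P` in degree `k` are positive. -/
def PosIn (k : ℕ) (P : MvPolynomial (Fin n) ℕ) : Prop :=
  ∀ γ : Fin n →₀ ℕ, γ.degree = k → 1 ≤ coeff γ P

theorem PosIn.step {k : ℕ} {P : MvPolynomial (Fin n) ℕ} (hP : PosIn k P) (i : Fin n) :
    PosIn (k + 1) ((X i + ∑ j, X j) * P) := by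
  classical
  intro γ hγ
  obtain ⟨j, hj⟩ : ∃ j, γ j ≠ 0 := by
    by_contra hno
    push Not at hno
    have : γ = 0 := by
      ext j
      exact hno j
    rw [this, map_zero] at hγ
    omega
  have h1 : coeff γ (X j * P) = coeff (γ - Finsupp.single j 1) P := by
    have h2 : γ = Finsupp.single j 1 + (γ - Finsupp.single j 1) := by
      rw [add_comm, tsub_add_cancel_of_le]
      rw [Finsupp.single_le_iff]
      omega
    conv_lhs => rw [h2]
    rw [coeff_X_mul]
  have h3 : 1 ≤ coeff γ (X j * P) := by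
    rw [h1]
    apply hP
    have h2 : γ = Finsupp.single j 1 + (γ - Finsupp.single j 1) := by
      rw [add_comm, tsub_add_cancel_of_le]
      rw [Finsupp.single_le_iff]
      omega
    have h4 := congrArg Finsupp.degree h2
    rw [map_add, Finsupp.degree_single, hγ] at h4
    omega
  have h5 : (X i + ∑ j, X j) * P = X j * P +
      (X i * P + ∑ l ∈ Finset.univ.erase j, X l * P) := by
    rw [add_mul, Finset.sum_mul, ← Finset.add_sum_erase Finset.univ _ (Finset.mem_univ j)]
    ring
  rw [h5, coeff_add]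
  omega

theorem PosIn.pow {k : ℕ} {P : MvPolynomial (Fin n) ℕ} (hP : PosIn k P) (i : Fin n) (b : ℕ) :
    PosIn (k + b) ((X i + ∑ j, X j) ^ b * P) := by
  induction b with
  | zero => simpa using hP
  | succ b ih =>
    rw [pow_succ', mul_assoc, ← add_assoc]
    exact ih.step i

theorem posIn_one : PosIn 0 (1 : MvPolynomial (Fin n) ℕ) := by
  intro γ hγ
  rw [Finsupp.degree_eq_zero_iff] at hγ
  rw [hγ]
  simp

theorem posIn_prod (β : Fin n → ℕ) (s : Finset (Fin n)) :
    PosIn (∑ i ∈ s, β i) (∏ i ∈ s, (X i + ∑ j, X j : MvPolynomial (Fin n) ℕ) ^ β i) := by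
  classical
  induction s using Finset.induction_on with
  | empty => simpa using posIn_one
  | insert a s ha ih =>
    rw [Finset.prod_insert ha, Finset.sum_insert ha, add_comm]
    exact ih.pow a (β a)

theorem coeff_prod_ne_zero (β γ : Fin n →₀ ℕ) (h : γ.degree = β.degree) :
    coeff γ (∏ i, (X i + ∑ j, X j : MvPolynomial (Fin n) ℂ) ^ β i) ≠ 0 := by
  have h1 := posIn_prod (fun i => β i) Finset.univ γ (by rw [h, Finsupp.degree_eq_sum])
  have h2 : (∏ i, (X i + ∑ j, X j : MvPolynomial (Fin n) ℂ) ^ β i) =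
      MvPolynomial.map (Nat.castRingHom ℂ)
        (∏ i, (X i + ∑ j, X j : MvPolynomial (Fin n) ℕ) ^ β i) := by
    simp
  rw [h2, coeff_map, eq_natCast, Nat.cast_ne_zero]
  omega

end Positivity

section

variable {n d : ℕ}

/-- The linear forms. -/
noncomputable def ell (j : Fin n) : MvPolynomial (Fin n) ℂ :=
  X j - C (((n : ℂ) + 1)⁻¹) * ∑ i, X i

/-- The Fermat form in other coordinates. -/
noncomputable def twisted (n d : ℕ) : MvPolynomial (Fin n) ℂ := ∑ j, ell j ^ d

theorem ell_isHomogeneous (j : Fin n) : (ell j).IsHomogeneous 1 := by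
  apply IsHomogeneous.sub
  · exact isHomogeneous_X _ _
  · apply IsHomogeneous.C_mul
    apply IsHomogeneous.sum
    intro i _
    exact isHomogeneous_X _ _

theorem twisted_isHomogeneous : (twisted n d).IsHomogeneous d := by
  apply IsHomogeneous.sum
  intro j _
  have := (ell_isHomogeneous j).pow d
  rwa [one_mul] at this

theorem pderiv_ell (i j : Fin n) :
    pderiv i (ell j) = C ((if i = j then 1 else 0) - ((n : ℂ) + 1)⁻¹) := by
  classical
  rw [ell, map_sub, pderiv_C_mul, map_sum]
  have h1 : ∑ l, pderiv i (X l : MvPolynomial (Fin n) ℂ) = 1 := by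
    rw [Finset.sum_eq_single i]
    · exact pderiv_X_self i
    · intro l _ hl
      exact pderiv_X_of_ne hl
    · simp
  rw [h1, mul_one, C_sub]
  congr 1
  by_cases h : i = j
  · subst h
    rw [pderiv_X_self, if_pos rfl, C_1]
  · rw [pderiv_X_of_ne (fun h' => h h'.symm), if_neg h, C_0]

theorem pderiv_twisted (i : Fin n) :
    pderiv i (twisted n d) = ∑ j, (d : MvPolynomial (Fin n) ℂ) * ell j ^ (d - 1) *
      C ((if i = j then 1 else 0) - ((n : ℂ) + 1)⁻¹) := by
  rw [twisted, map_sum]
  apply Finset.sum_congr rfl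
  intro j _
  rw [pderiv_pow, pderiv_ell]

theorem natCast_add_one_ne (n : ℕ) : (n : ℂ) + 1 ≠ 0 := by
  have : ((n + 1 : ℕ) : ℂ) ≠ 0 := Nat.cast_ne_zero.2 (by omega)
  simpa using this

/-- If every `c_i` is the sum of all of them divided by `n + 1`, then all vanish. -/
theorem eq_zero_of_avg (c : Fin n → ℂ) (h : ∀ i, c i = ((n : ℂ) + 1)⁻¹ * ∑ j, c j) :
    ∀ i, c i = 0 := by
  have h1 : ∑ j, c j = (n : ℂ) * (((n : ℂ) + 1)⁻¹ * ∑ j, c j) := by
    conv_lhs => rw [Finset.sum_congr rfl (fun i _ => h i)]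
    simp
  have hne := natCast_add_one_ne n
  have h2 : ∑ j, c j = 0 := by
    field_simp at h1
    linear_combination h1
  intro i
  rw [h i, h2, mul_zero]

theorem twisted_not_degenerate (hd : 2 ≤ d) : ¬ IsDegenerate (twisted n d) := by
  classical
  rintro ⟨z, hz, hzf⟩
  have hd0 : (d : ℂ) ≠ 0 := Nat.cast_ne_zero.2 (by omega)
  have h1 : ∀ i, (eval z (ell i)) ^ (d - 1) =
      ((n : ℂ) + 1)⁻¹ * ∑ j, (eval z (ell j)) ^ (d - 1) := by
    intro i
    have h2 := hzf i
    rw [pderiv_twisted, map_sum] at h2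
    have h3 : ∀ j, eval z ((d : MvPolynomial (Fin n) ℂ) * ell j ^ (d - 1) *
        C ((if i = j then 1 else 0) - ((n : ℂ) + 1)⁻¹)) =
        (d : ℂ) * ((if i = j then (eval z (ell j)) ^ (d - 1) else 0) -
          ((n : ℂ) + 1)⁻¹ * (eval z (ell j)) ^ (d - 1)) := by
      intro j
      simp only [map_mul, map_pow, map_natCast, eval_C]
      split_ifs <;> ring
    simp only [h3] at h2
    rw [← Finset.mul_sum, Finset.sum_sub_distrib, Finset.sum_ite_eq, if_pos (Finset.mem_univ i),
      ← Finset.mul_sum] at h2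
    have h4 := (mul_eq_zero.1 h2).resolve_left hd0
    exact sub_eq_zero.1 h4
  have h2 := eq_zero_of_avg _ h1
  have h3 : ∀ i, eval z (ell i) = 0 := fun i => pow_eq_zero_iff (by omega) |>.1 (h2 i)
  have h4 : ∀ i, z i = ((n : ℂ) + 1)⁻¹ * ∑ j, z j := by
    intro i
    have := h3 i
    rw [ell, map_sub, map_mul, eval_X, eval_C, map_sum] at this
    simp only [eval_X] at this
    exact sub_eq_zero.1 this
  exact hz (funext (eq_zero_of_avg _ h4))

/-- The substitution inverse to the linear forms. -/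
noncomputable def untwist (n : ℕ) : MvPolynomial (Fin n) ℂ →ₐ[ℂ] MvPolynomial (Fin n) ℂ :=
  aeval (fun i => X i + ∑ j, X j)

theorem untwist_ell (j : Fin n) : untwist n (ell j) = X j := by
  have hne := natCast_add_one_ne n
  rw [ell, map_sub, map_mul, map_sum, untwist]
  simp only [aeval_X, algHom_C, algebraMap_eq]
  rw [Finset.sum_add_distrib]
  simp only [Finset.sum_const, Finset.card_univ, Fintype.card_fin, nsmul_eq_mul]
  have h1 : (C (((n : ℂ) + 1)⁻¹) * (∑ x, X x + (n : MvPolynomial (Fin n) ℂ) * ∑ x, X x) :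
      MvPolynomial (Fin n) ℂ) = ∑ x, X x := by
    have h2 : (∑ x, X x + (n : MvPolynomial (Fin n) ℂ) * ∑ x, X x : MvPolynomial (Fin n) ℂ) =
        C ((n : ℂ) + 1) * ∑ x, X x := by
      simp
      ring
    rw [h2, ← mul_assoc, ← C_mul, inv_mul_cancel₀ hne, C_1, one_mul]
  rw [h1]
  ring

theorem untwist_mem (x : MvPolynomial (Fin n) ℂ) (hx : x ∈ jacobianIdeal (twisted n d)) :
    untwist n x ∈ powIdeal ℂ n (d - 1) Set.univ := by
  rw [jacobianIdeal] at hx
  refine Submodule.span_induction (p := fun x _ => untwist n x ∈ powIdeal ℂ n (d - 1) Set.univ)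
    ?_ ?_ ?_ ?_ hx
  · rintro _ ⟨i, rfl⟩
    change untwist n (pderiv i (twisted n d)) ∈ _
    rw [pderiv_twisted, map_sum]
    apply Ideal.sum_mem
    intro j _
    rw [map_mul, map_mul, map_pow, untwist_ell]
    apply Ideal.mul_mem_right
    apply Ideal.mul_mem_left
    exact X_pow_mem_powIdeal (Set.mem_univ _)
  · rw [map_zero]
    exact Ideal.zero_mem _
  · intro x y _ _ hx hy
    rw [map_add]
    exact Ideal.add_mem _ hx hy
  · intro a x _ hx
    rw [smul_eq_mul, map_mul]
    exact Ideal.mul_mem_left _ _ hx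

/-- **Part I.** For every monomial of degree `n (d - 2)` there is a nondegenerate form whose
Jacobian ideal does not contain it. -/
theorem monomial_notMem (hd : 2 ≤ d) (β : Expo n (n * (d - 2))) :
    monomial β.1 (1 : ℂ) ∉ jacobianIdeal (twisted n d) := by
  intro hmem
  have h1 := untwist_mem _ hmem
  have h2 : untwist n (monomial β.1 (1 : ℂ)) = ∏ i, (X i + ∑ j, X j) ^ β.1 i := by
    rw [untwist, aeval_monomial, map_one, one_mul, Finsupp.prod_fintype]
    intro i
    exact pow_zero _
  rw [h2, mem_powIdeal] at h1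
  let γ : Fin n →₀ ℕ := ∑ i, Finsupp.single i (d - 2)
  have hγ : ∀ i, γ i = d - 2 := by
    intro i
    simp only [γ]
    rw [Finsupp.finsetSum_apply, Finset.sum_eq_single i]
    · simp
    · intro j _ hj
      simp [hj]
    · simp
  have hγdeg : γ.degree = β.1.degree := by
    rw [β.2, Finsupp.degree_eq_sum]
    simp [hγ]
  obtain ⟨i, -, hi⟩ := h1 γ (by
    rw [mem_support_iff]
    exact coeff_prod_ne_zero β.1 γ hγdeg)
  rw [hγ i] at hi
  omega

end

end Pool.Agent.Lib.Helper77.Disc
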