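import Pool.Agent.Lib.Helper77.Disc.PartC

/-!
# Reduced fractions for the coefficients
-/

set_option autoImplicit false

open MvPolynomial Matrix

namespace Pool.Agent.Lib.Helper77.Disc

variable {n d e ρ : ℕ}

/-- The form with given coefficients. -/
noncomputable def ofCoeffs (x : Expo n d → ℂ) : MvPolynomial (Fin n) ℂ :=
  ∑ α : Expo n d, monomial α.1 (x α)

theorem ofCoeffs_isHomogeneous (x : Expo n d → ℂ) : (ofCoeffs x).IsHomogeneous d := by
  apply IsHomogeneous.sum
  intro α _
  exact isHomogeneous_monomial _ α.2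

theorem coeff_ofCoeffs (x : Expo n d → ℂ) (α : Expo n d) : coeff α.1 (ofCoeffs x) = x α := by
  classical
  rw [ofCoeffs, coeff_sum, Finset.sum_eq_single α]
  · rw [coeff_monomial, if_pos rfl]
  · intro β _ hβ
    rw [coeff_monomial, if_neg]
    intro h
    exact hβ (Subtype.ext h)
  · simp

theorem atForm_ofCoeffs (P : CoeffRing n d) (x : Expo n d → ℂ) :
    atForm P (ofCoeffs x) = eval x P := by
  rw [atForm]
  congr 2
  funext α
  exact coeff_ofCoeffs x α

theorem eq_zero_of_atForm (P : CoeffRing n d)
    (h : ∀ f : MvPolynomial (Fin n) ℂ, f.IsHomogeneous d → atForm P f = 0) : P = 0 := by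
  apply MvPolynomial.funext
  intro x
  rw [map_zero, ← atForm_ofCoeffs]
  exact h _ (ofCoeffs_isHomogeneous x)

theorem atForm_mul (P Q : CoeffRing n d) (f : MvPolynomial (Fin n) ℂ) :
    atForm (P * Q) f = atForm P f * atForm Q f := by
  simp [atForm]

theorem atForm_sub (P Q : CoeffRing n d) (f : MvPolynomial (Fin n) ℂ) :
    atForm (P - Q) f = atForm P f - atForm Q f := by
  simp [atForm]

/-- The determinant attached to a choice of columns. -/
noncomputable def genDet (κ : Expo n ρ → Option (Fin n × Expo n e)) : CoeffRing n d :=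
  (colMatrix κ (genForm n d)).det

theorem atForm_genDet (κ : Expo n ρ → Option (Fin n × Expo n e)) (f : MvPolynomial (Fin n) ℂ)
    (hf : f.IsHomogeneous d) : atForm (genDet κ : CoeffRing n d) f = (colMatrix κ f).det := by
  conv_rhs => rw [← map_genForm_eval (d := d) f hf]
  rw [colMatrix_map]
  rfl

/-- **Part R.** -/
theorem exists_reduced (hd : 2 ≤ d) (hρ : ρ = n * (d - 2)) (he : e + (d - 1) = ρ)
    (κ₀ : Expo n ρ → Option (Fin n × Expo n e)) (hκ₀ : (genDet κ₀ : CoeffRing n d) ≠ 0)
    (β : Expo n ρ) :
    ∃ D' N' : CoeffRing n d, D' ≠ 0 ∧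
      (∀ κ : Expo n ρ → Option (Fin n × Expo n e), D' ∣ (genDet κ : CoeffRing n d)) ∧
      IsRelPrime D' N' ∧
      ∀ f : MvPolynomial (Fin n) ℂ, f.IsHomogeneous d → ¬ IsDegenerate f →
        monomial β.1 (atForm D' f) - C (atForm N' f) * hessianDet f ∈ jacobianIdeal f := by
  choose N hN using fun κ => cramer_mem (R := CoeffRing n d) hρ he (genForm n d)
    (genForm_isHomogeneous n d) κ β
  have hNf : ∀ κ, ∀ f : MvPolynomial (Fin n) ℂ, f.IsHomogeneous d →
      monomial β.1 (atForm (genDet κ : CoeffRing n d) f) - C (atForm (N κ) f) * hessianDet f ∈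
        jacobianIdeal f := by
    intro κ f hf
    have h1 := jacobianIdeal_map (eval (fun α : Expo n d => coeff α.1 f)) _ (hN κ)
    rw [map_genForm_eval f hf, map_sub, map_mul, map_monomial, map_C, ← hessianDet_map,
      map_genForm_eval f hf] at h1
    exact h1
  have hunique : ∀ f : MvPolynomial (Fin n) ℂ, f.IsHomogeneous d → ¬ IsDegenerate f → ∀ c : ℂ,
      C c * hessianDet f ∈ jacobianIdeal f → c = 0 := by
    intro f hf hnd c hc
    by_contra hne
    apply hessianDet_notMem f d hd hf hnd
    have := Ideal.mul_mem_left (jacobianIdeal f) (C c⁻¹) hc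
    rwa [← mul_assoc, ← C_mul, inv_mul_cancel₀ hne, C_1, one_mul] at this
  have hcross : ∀ κ κ', (genDet κ : CoeffRing n d) * N κ' = genDet κ' * N κ := by
    intro κ κ'
    have h1 : ((genDet κ : CoeffRing n d) * N κ' - genDet κ' * N κ) * genDet κ₀ = 0 := by
      apply eq_zero_of_atForm
      intro f hf
      rw [atForm_mul]
      by_cases hnd : IsDegenerate f
      · rw [atForm_genDet κ₀ f hf, det_eq_zero_of_degenerate f hf hρ he hnd, mul_zero]
      · have h2 := hNf κ f hf
        have h3 := hNf κ' f hf
        have h4 : C (atForm ((genDet κ : CoeffRing n d) * N κ' - genDet κ' * N κ) f) *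
            hessianDet f ∈ jacobianIdeal f := by
          have h5 : (C (atForm ((genDet κ : CoeffRing n d) * N κ' - genDet κ' * N κ) f) *
              hessianDet f : MvPolynomial (Fin n) ℂ) =
              C (atForm (genDet κ' : CoeffRing n d) f) *
                (monomial β.1 (atForm (genDet κ : CoeffRing n d) f) -
                  C (atForm (N κ) f) * hessianDet f) -
              C (atForm (genDet κ : CoeffRing n d) f) *
                (monomial β.1 (atForm (genDet κ' : CoeffRing n d) f) -
                  C (atForm (N κ') f) * hessianDet f) := by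
            rw [atForm_sub, atForm_mul, atForm_mul, map_sub, map_mul, map_mul]
            simp only [mul_sub, C_mul_monomial]
            rw [mul_comm (atForm (genDet κ' : CoeffRing n d) f)
              (atForm (genDet κ : CoeffRing n d) f)]
            ring
          rw [h5]
          exact Ideal.sub_mem _ (Ideal.mul_mem_left _ _ h2) (Ideal.mul_mem_left _ _ h3)
        rw [hunique f hf hnd _ h4, zero_mul]
    have h2 := (mul_eq_zero.1 h1).resolve_right hκ₀
    exact sub_eq_zero.1 h2
  obtain ⟨a', b', c', hrel, ha', hb'⟩ :=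
    UniqueFactorizationMonoid.exists_reduced_factors (genDet κ₀ : CoeffRing n d) hκ₀ (N κ₀)
  have hc' : c' ≠ 0 := by
    rintro rfl
    rw [zero_mul] at ha'
    exact hκ₀ ha'.symm
  have ha'0 : a' ≠ 0 := by
    rintro rfl
    rw [mul_zero] at ha'
    exact hκ₀ ha'.symm
  have hrelκ : ∀ κ, (genDet κ : CoeffRing n d) * b' = a' * N κ := by
    intro κ
    have h1 := hcross κ κ₀
    rw [← ha', ← hb'] at h1
    have h2 : c' * ((genDet κ : CoeffRing n d) * b') = c' * (a' * N κ) := by
      calc c' * ((genDet κ : CoeffRing n d) * b') = genDet κ * (c' * b') := by ring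
        _ = c' * a' * N κ := h1
        _ = _ := by ring
    exact mul_left_cancel₀ hc' h2
  refine ⟨a', b', ha'0, ?_, hrel, ?_⟩
  · intro κ
    exact hrel.dvd_of_dvd_mul_right ⟨N κ, hrelκ κ⟩
  · intro f hf hnd
    obtain ⟨κ, hκ⟩ := exists_det_ne_zero (e := e) hd hρ he f hf hnd
    rw [← atForm_genDet κ f hf] at hκ
    have h1 := hNf κ f hf
    have h2 := congrArg (fun P => atForm P f) (hrelκ κ)
    simp only [atForm_mul] at h2
    have h3 : (monomial β.1 (atForm a' f) - C (atForm b' f) * hessianDet f :
        MvPolynomial (Fin n) ℂ) = C ((atForm (genDet κ : CoeffRing n d) f)⁻¹ * atForm a' f) *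
        (monomial β.1 (atForm (genDet κ : CoeffRing n d) f) -
          C (atForm (N κ) f) * hessianDet f) := by
      rw [mul_sub, C_mul_monomial, ← mul_assoc, ← C_mul]
      congr 2
      · field_simp
      · congr 1
        field_simp
        rw [mul_comm, h2]
    rw [h3]
    exact Ideal.mul_mem_left _ _ h1

end Pool.Agent.Lib.Helper77.Disc
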